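import Pool.Agent.T6.H34.EK.Nef

/-!
# The cone conjecture for quotients of blow-ups of `E^n` by arbitrary finite groups
-/

set_option autoImplicit false
set_option maxHeartbeats 400000

namespace Pool.Agent.T6.H34.EK

open Filter Topology
open Pool.Agent.R895 (Lat BlBundle act kum N1 N1s IsEis IsClass std frm kap Nf Dat Normalizes
  frm_add frm_smul frm_sub frm_zero frm_herm std_dat std_herm std_pos std_nonneg one_le_std
  cone_of_scaled)
open Pool.Agent.Y167 (AffGrp cone CData Pol Cp cone_ind cone_add cone_smul cone_sum cone_le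
  mem_cone_self mem_cone_of_sum zero_mem_cone cone_cut cone_image cone_mono)
open Pool.Agent.Y167.CC (LinGrp Preserves IsFundDomain)

variable {n : ℕ} {G : Subgroup ((Fin n → ℂ) ≃ₗ[ℂ] (Fin n → ℂ))} {hG : PresLat G}

/-- The group generated by the integral classes is preserved. -/
theorem closure_map {g : NS (grp G hG) ≃ₗ[ℝ] NS (grp G hG)}
    (hg : ∀ x ∈ integral (grp G hG), g x ∈ integral (grp G hG)) {x : NS (grp G hG)}
    (hx : x ∈ LQ hG) : g x ∈ LQ hG := by
  have h1 : LQ hG ≤ (LQ hG).comap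
      (g : NS (grp G hG) ≃+ NS (grp G hG)).toAddMonoidHom := by
    rw [AddSubgroup.closure_le]
    intro x hx
    exact AddSubgroup.subset_closure (hg x hx)
  exact h1 hx

/-- **The cone conjecture**, general form. -/
theorem core [Fintype G] (hn0 : 2 ≤ n) (hn : n ≤ 4) (𝒢 : LinGrp (NS (grp G hG)))
    (h1 : Preserves 𝒢 (integral (grp G hG)))
    (h2 : Preserves 𝒢 (nefCone (grp G hG) ∩ effCone (grp G hG)))
    (h3 : ∀ g u, IsPb hG g u → g ∈ 𝒢) :
    ∃ S : Finset (NS (grp G hG)), ↑S ⊆ integral (grp G hG) ∧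
      cone S ⊆ nefCone (grp G hG) ∩ effCone (grp G hG) ∧
      IsFundDomain 𝒢 (nefCone (grp G hG) ∩ effCone (grp G hG)) (cone S) := by
  classical
  have hne : Nonempty (Fin n) := ⟨⟨0, by omega⟩⟩
  obtain ⟨y₀, hy0, hy1, hy2⟩ := exists_y₀ hG
  obtain ⟨Y, D⟩ := exists_cdata (by omega) hy0 hy1 hy2
  obtain ⟨F₁, hF₁, hcov⟩ := covering hG
  have hcc := c0_real (G := G)
  have h𝒢L : ∀ g ∈ 𝒢, ∀ x ∈ LQ hG, g x ∈ LQ hG := fun g hg x hx => closure_map (h1 g hg) hx
  have hre : ∀ v : Fin n → ℂ, (frm (up y₀) v v).re = c0 G * (2 * (avg G std v v).re) := by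
    intro v
    rw [hy1, re_twice]
  have hpd : ∀ (t : ℝ) (x : NS (grp G hG)), 0 < t → x - t • y₀ ∈ NfQ hG →
      x ∈ NfQ hG ∧ ∃ t : ℝ, 0 < t ∧ ∀ v, t * (std v v).re ≤ (frm (up x) v v).re := by
    intro t x ht hx
    have h4 : x = (x - t • y₀) + t • y₀ := by abel
    refine ⟨?_, t * (c0 G * 2), by positivity, fun v => ?_⟩
    · rw [h4]
      exact NfQ_add hx (NfQ_smul ht.le D.y_N)
    · rw [h4, up_add, up_smul, frm_add, Complex.add_re, frm_smul, Complex.re_ofReal_mul, hre]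
      have h5 := hx.1 v
      have h6 := std_le_avg (G := G) v
      have h7 : t * (c0 G * 2) * (std v v).re ≤ t * (c0 G * 2) * (avg G std v v).re :=
        mul_le_mul_of_nonneg_left h6 (by positivity)
      linarith
  have hadd : ∀ x ∈ NfQ hG, ∀ t : ℝ, 0 < t →
      x + t • y₀ ∈ nefCone (grp G hG) ∩ effCone (grp G hG) := by
    intro x hx t ht
    obtain ⟨k1, k2⟩ := hpd t (x + t • y₀) ht (by rwa [add_sub_cancel_right])
    refine Cp_le hn0 hn (Cp_of_up ?_)
    rw [mem_NfQ] at k1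
    exact Pool.Agent.R895.Cp_of_pd (Pool.Agent.R895.id_isExt n) Function.injective_id k1 k2
  have h𝒢N : ∀ g ∈ 𝒢, ∀ x ∈ NfQ hG, g x ∈ NfQ hG := by
    intro g hg x hx
    refine mem_closed (y := g y₀) isClosed_NfQ fun n => ?_
    have h4 := h2 g hg _ (hadd x hx (1 / ((n : ℝ) + 1)) (by positivity))
    rw [map_add, map_smul] at h4
    exact nefCone_le h4.1
  obtain ⟨S, hS1, hS2, hS3⟩ := D.domain 𝒢 h𝒢L h𝒢N F₁ hF₁ (by
    rintro x ⟨t, ht, hx⟩
    obtain ⟨k1, k2⟩ := hpd t x ht hx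
    obtain ⟨g, u, hg, hgx⟩ := hcov x k1 k2
    exact ⟨g, h3 g u hg, hgx⟩)
  have hcone : ∀ x, x ∈ cone (S.image fun a => (c0 G : ℝ) • a) ↔ x ∈ cone S := by
    intro x
    constructor
    · refine fun h => cone_le (fun a ha => ?_) h
      obtain ⟨a', ha', rfl⟩ := Finset.mem_image.1 ha
      exact cone_smul (mem_cone_self ha') hcc.le
    · refine fun h => cone_le (fun a ha => ?_) h
      exact cone_of_scaled hcc (Finset.mem_image_of_mem (fun a => (c0 G : ℝ) • a) ha)
  have hcone' : cone (S.image fun a => (c0 G : ℝ) • a) = cone S := Set.ext hcone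
  refine ⟨S.image fun a => (c0 G : ℝ) • a, ?_, ?_, ?_, ?_⟩
  · intro a ha
    obtain ⟨a', ha', rfl⟩ := Finset.mem_image.1 ha
    exact c0_int (hS1 a' ha').1 (hS1 a' ha').2
  · rw [hcone']
    intro x hx
    exact Cp_le hn0 hn ⟨S, hS1, hx⟩
  · ext x
    rw [← mem_Cp_iff hn0 hn, hS2, hcone', Set.mem_iUnion₂]
    constructor
    · rintro ⟨g, hg, hgx⟩
      exact ⟨g⁻¹, 𝒢.inv_mem hg, g x, hgx, g.symm_apply_apply x⟩
    · rintro ⟨g, hg, y, hy, rfl⟩
      refine ⟨g⁻¹, 𝒢.inv_mem hg, ?_⟩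
      have : (g⁻¹ : NS (grp G hG) ≃ₗ[ℝ] NS (grp G hG)) (g y) = y := g.symm_apply_apply y
      rwa [this]
  · intro g hg hg1
    rw [hcone', Set.eq_empty_iff_forall_notMem]
    obtain ⟨φ, hφ0, hφ1, hφ2⟩ := hS3 g hg hg1
    rintro x ⟨hx, y, hy, rfl⟩
    have h4 := hφ2 y hy
    obtain ⟨w, hw⟩ : ∃ w, 0 < φ w := by
      by_contra hcon
      push Not at hcon
      apply hφ0
      ext w
      have e1 := hcon w
      have e2 := hcon (-w)
      rw [map_neg] at e2
      change φ w = 0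
      linarith
    have hcont : Continuous fun t : ℝ => g y - t • w := by fun_prop
    have hmem : ∀ᶠ t : ℝ in 𝓝 0, g y - t • w ∈ interior (cone S) := by
      apply hcont.continuousAt.eventually_mem
      rw [zero_smul, sub_zero]
      exact isOpen_interior.mem_nhds hx
    obtain ⟨ε, hε, hball⟩ := Metric.eventually_nhds_iff.1 hmem
    have h5 := interior_subset (hball (y := ε / 2) (by
      rw [Real.dist_eq, sub_zero, abs_of_pos (by linarith)]
      linarith))
    have h6 := hφ1 _ h5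
    rw [map_sub, map_smul, smul_eq_mul] at h6
    have h7 : 0 < ε / 2 * φ w := by positivity
    linarith

end Pool.Agent.T6.H34.EK
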