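import Pool.Agent.T6.H34.EK.Sa
import Pool.Agent.R895.Abs

/-!
# Classes given by invariant hermitian forms
-/

set_option autoImplicit false
set_option maxHeartbeats 400000

namespace Pool.Agent.T6.H34.EK

open Filter Topology
open Pool.Agent.W594.SYZ2 (IsHermitian)
open Pool.Agent.R895 (Lat BlBundle act kum N1 N1s IsEis IsClass std frm kap Nf Dat cs_of_psd kap_pos
  kap_ne thB IsExt id_isExt exH exH_herm exH_int semiample_thB section_thB section_thB_zero
  frm_add frm_smul frm_sub frm_zero frm_herm std_dat std_herm std_int std_pos std_nonneg one_le_std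
  re_natMul le_std form_frm N1_ext' kap_im_eis xi)
open Pool.Agent.Y167 (AffGrp cone CData)

variable {n : ℕ} {G : Subgroup ((Fin n → ℂ) ≃ₗ[ℂ] (Fin n → ℂ))} {hG : PresLat G}
  {h : (Fin n → ℂ) → (Fin n → ℂ) → ℂ}

section basic

theorem up_add (x y : NS (grp G hG)) : up (x + y) = up x + up y := rfl

theorem up_sub (x y : NS (grp G hG)) : up (x - y) = up x - up y := rfl

theorem up_smul (t : ℝ) (x : NS (grp G hG)) : up (t • x) = t • up x := rfl

theorem up_zero : up (0 : NS (grp G hG)) = 0 := rfl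

theorem coef_add (x y : NS (grp G hG)) : coef (x + y) = coef x + coef y := rfl

theorem coef_smul (t : ℝ) (x : NS (grp G hG)) : coef (t • x) = t * coef x := rfl

theorem coef_zero : coef (0 : NS (grp G hG)) = 0 := rfl

theorem NS_ext {x y : NS (grp G hG)} (h1 : ∀ u w, frm (up x) u w = frm (up y) u w)
    (h2 : coef x = coef y) : x = y :=
  up_inj (N1_ext' h1 h2)

/-- The cone which will turn out to be the nef cone. -/
def NfQ (hG : PresLat G) : Set (NS (grp G hG)) := {x | up x ∈ Nf 1 LinearMap.id}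

theorem mem_NfQ (x : NS (grp G hG)) : x ∈ NfQ hG ↔ up x ∈ Nf 1 LinearMap.id := Iff.rfl

theorem NfQ_add {x y : NS (grp G hG)} (hx : x ∈ NfQ hG) (hy : y ∈ NfQ hG) : x + y ∈ NfQ hG := by
  rw [mem_NfQ] at hx hy ⊢
  rw [up_add]
  exact Pool.Agent.R895.Nf_add hx hy

theorem NfQ_smul {t : ℝ} (ht : 0 ≤ t) {x : NS (grp G hG)} (hx : x ∈ NfQ hG) :
    t • x ∈ NfQ hG := by
  rw [mem_NfQ] at hx ⊢
  rw [up_smul]
  exact Pool.Agent.R895.Nf_smul ht hx

theorem NfQ_zero : (0 : NS (grp G hG)) ∈ NfQ hG := by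
  rw [mem_NfQ, up_zero]
  exact Pool.Agent.R895.Nf_zero

/-- The group generated by the integral classes. -/
noncomputable abbrev LQ (hG : PresLat G) : AddSubgroup (NS (grp G hG)) :=
  AddSubgroup.closure (integral (grp G hG))

theorem up_LQ {x : NS (grp G hG)} (hx : x ∈ LQ hG) :
    up x ∈ AddSubgroup.closure (Pool.Agent.R895.integral (kum (Fin n) 1) LinearMap.id) := by
  have h1 : LQ hG ≤ (AddSubgroup.closure
      (Pool.Agent.R895.integral (kum (Fin n) 1) LinearMap.id)).comap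
        (upL (G := G) (hG := hG)).toAddMonoidHom := by
    rw [AddSubgroup.closure_le]
    intro x hx
    exact AddSubgroup.subset_closure (up_integral hx)
  exact h1 hx

theorem dat_of_LQ {x : NS (grp G hG)} (hx : x ∈ LQ hG) :
    Dat (frm (up x)) ∧ ∃ k : ℤ, coef x = k :=
  Pool.Agent.R895.eis_of_mem (id_isExt n) (up_LQ hx)

theorem frm_inv (x : NS (grp G hG)) : Inv G (frm (up x)) := fun g hg u w => by
  unfold frm
  rw [form_up, form_inv x hg]

end basic

section classes

variable [Fintype G]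

/-- The constant. -/
noncomputable def c0 (G : Subgroup ((Fin n → ℂ) ≃ₗ[ℂ] (Fin n → ℂ))) [Fintype G] : ℕ :=
  6 * Fintype.card G

theorem c0_pos : 0 < c0 G := Nat.mul_pos (by norm_num) Fintype.card_pos

theorem c0_real : (0 : ℝ) < c0 G := by exact_mod_cast c0_pos

variable [Nonempty (Fin n)]

/-- The class of an invariant integral form. -/
theorem exists_cls (hG : PresLat G) (D : Dat h) (hi : Inv G h) (b : ℕ) :
    ∃ y : NS (grp G hG), y ∈ integral (grp G hG) ∧ (∀ u w, frm (up y) u w = c0 G * h u w) ∧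
      coef y = c0 G * b := by
  have hL := qB_cls hG D.herm D.int hi b
  refine ⟨⟨_, Submodule.subset_span ⟨_, hL⟩⟩, ⟨_, hL⟩, fun u w => ?_, ?_⟩
  · change (Fintype.card G : ℂ) * (6 * kap * h u w) / kap = _
    have := kap_ne
    unfold c0
    push_cast
    field_simp
  · change (Fintype.card G : ℝ) * (6 * b) = _
    unfold c0
    push_cast
    ring

theorem cls_eq {D : Dat h} {hi : Inv G h} {b : ℕ} {y : NS (grp G hG)}
    (h1 : ∀ u w, frm (up y) u w = c0 G * h u w) (h2 : coef y = c0 G * b) :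
    IsCls (qB hG D.herm D.int hi b) (form y, coef y) := by
  have h4 : (form y, coef y) = ((fun u w => (Fintype.card G : ℂ) * (6 * kap * h u w),
      (Fintype.card G : ℝ) * (6 * b)) : ((Fin n → ℂ) → (Fin n → ℂ) → ℂ) × ℝ) := by
    refine Prod.ext (funext fun u => funext fun w => ?_) ?_
    · change Pool.Agent.R895.form (up y) u w = (Fintype.card G : ℂ) * (6 * kap * h u w)
      rw [form_frm, h1]
      unfold c0
      push_cast
      ring
    · change coef y = (Fintype.card G : ℝ) * (6 * b)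
      rw [h2]
      unfold c0
      push_cast
      ring
  rw [h4]
  exact qB_cls hG D.herm D.int hi b

theorem exH_id (D : Dat h) (c : ℕ) : exH id c h = h := by
  funext u w
  exact (id_isExt n).exH (h := h) Function.injective_id c u w

theorem thB_semi {h' : (Fin n → ℂ) → (Fin n → ℂ) → ℂ} (e : h' = h) {b : ℕ}
    {hh' : IsHermitian h'} {hint' : ∀ u w, Lat u → Lat w → IsEis (h' u w)}
    {hh : IsHermitian h} {hint : ∀ u w, Lat u → Lat w → IsEis (h u w)}
    (hs : (thB 1 hh' hint' b).IsSemiample) : (thB 1 hh hint b).IsSemiample := by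
  subst e
  exact hs

theorem thB_sec {h' : (Fin n → ℂ) → (Fin n → ℂ) → ℂ} (e : h' = h) {b : ℕ}
    {hh' : IsHermitian h'} {hint' : ∀ u w, Lat u → Lat w → IsEis (h' u w)}
    {hh : IsHermitian h} {hint : ∀ u w, Lat u → Lat w → IsEis (h u w)}
    (hs : ∃ N : ℕ, 1 ≤ N ∧ ∃ s, ((thB 1 hh' hint' b).pow N).IsSection s ∧ ∃ v, s v ≠ 0) :
    ∃ N : ℕ, 1 ≤ N ∧ ∃ s, ((thB 1 hh hint b).pow N).IsSection s ∧ ∃ v, s v ≠ 0 := by
  subst e
  exact hs

theorem semiample_cls (hn : n ≤ 4) (D : Dat h) (hi : Inv G h) (b : ℕ)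
    (hp : ∀ v, v ≠ 0 → 0 < (h v v).re)
    (hb : ∀ v, Lat v → v ≠ 0 → (b : ℝ) < (h v v).re) {y : NS (grp G hG)}
    (h1 : ∀ u w, frm (up y) u w = c0 G * h u w) (h2 : coef y = c0 G * b) :
    y ∈ semiample (grp G hG) :=
  ⟨_, cls_eq (D := D) (hi := hi) h1 h2, semiample_qB hG D.herm D.int hi
    (thB_semi (exH_id D b) (semiample_thB (ρ := id) (m := 1) hn D b hp hb))⟩

theorem pow_cls {L : QBundle (grp G hG)} {x : NS (grp G hG)} (hL : IsCls L (form x, coef x))
    (N : ℕ) : ∃ L' : QBundle (grp G hG), L'.toBlBundle = L.toBlBundle.pow N ∧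
      IsCls L' (form ((N : ℝ) • x), coef ((N : ℝ) • x)) := by
  refine ⟨{ toBlBundle := L.toBlBundle.pow N
            eig := fun γ u ζ hu h1 => by
              change L.e γ 0 ^ N = ζ ^ ((N : ℤ) * L.k)
              rw [L.eig γ u ζ hu h1, mul_comm, zpow_mul, zpow_natCast] }, rfl, ?_⟩
  obtain ⟨⟨hH, F, hF, hFe⟩, hk⟩ := hL
  dsimp only at hH hFe hk
  have hf : ∀ u w, form ((N : ℝ) • x) u w = N * form x u w := by
    intro u w
    change (N : ℝ) • form x u w = _
    rw [Complex.real_smul]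
    push_cast
    rfl
  refine ⟨⟨⟨fun u v w => ?_, fun a v w => ?_, fun v w => ?_⟩, fun v => N * F v,
    hF.const_mul _, fun γ v => ?_⟩, ?_⟩
  · change form ((N : ℝ) • x) _ _ = form ((N : ℝ) • x) _ _ + form ((N : ℝ) • x) _ _
    rw [hf, hf, hf, hH.add_left]
    ring
  · change form ((N : ℝ) • x) _ _ = a * form ((N : ℝ) • x) _ _
    rw [hf, hf, hH.smul_left]
    ring
  · change form ((N : ℝ) • x) _ _ = (starRingEnd ℂ) (form ((N : ℝ) • x) _ _)
    rw [hf, hf, map_mul, ← hH.symm, Complex.conj_natCast]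
  · change ‖L.e γ v ^ N‖ ^ 2 = Real.exp (Real.pi * (form ((N : ℝ) • x) _ _).re +
      2 * (N * F _ : ℂ).re - (Real.pi * (form ((N : ℝ) • x) _ _).re + 2 * (N * F _ : ℂ).re))
    rw [norm_pow, ← pow_mul, mul_comm N 2, pow_mul, hFe, ← Real.exp_nat_mul]
    congr 1
    have h2 : ∀ z : ℂ, ((N : ℂ) * z).re = N * z.re := by
      intro z
      have : (N : ℂ) = ((N : ℝ) : ℂ) := by push_cast; rfl
      rw [this, Complex.re_ofReal_mul]
    rw [h2, h2, hf, hf, h2, h2]
    ring
  · change (N : ℝ) * coef x = ((N * L.k : ℤ) : ℝ)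
    have h3 : coef x = L.k := hk
    rw [h3]
    push_cast
    rfl

end classes

end Pool.Agent.T6.H34.EK
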