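import Pool.Agent.T6.H34.EK.Redu

/-!
# The covering
-/

set_option autoImplicit false
set_option maxHeartbeats 400000

namespace Pool.Agent.T6.H34.EK

open Filter Topology
open Pool.Agent.W594.SYZ2 (IsHermitian)
open Pool.Agent.R895 (Lat BlBundle act kum N1 N1s IsEis IsClass std frm kap Nf Dat cs_of_psd kap_pos
  kap_ne thB IsExt id_isExt lat exists_basis dat_of_isInt re_kap_div Normalizes
  differentiable_equiv cut_int exists_vectors
  frm_add frm_smul frm_sub frm_zero frm_herm std_dat std_herm std_int std_pos std_nonneg one_le_std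
  re_natMul le_std form_frm N1_ext' kap_im_eis xi)
open Pool.Agent.Y167 (AffGrp cone CData Pol Cp cone_ind cone_add cone_smul cone_sum cone_le
  mem_cone_self mem_cone_of_sum zero_mem_cone cone_cut cone_image)

variable {n : ℕ} {G : Subgroup ((Fin n → ℂ) ≃ₗ[ℂ] (Fin n → ℂ))} {hG : PresLat G}
  {h : (Fin n → ℂ) → (Fin n → ℂ) → ℂ}

/-- The pullbacks by the automorphisms of the lattice which commute with `G`. -/
structure IsPb (hG : PresLat G) (g : NS (grp G hG) ≃ₗ[ℝ] NS (grp G hG))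
    (u : (Fin n → ℂ) ≃ₗ[ℂ] (Fin n → ℂ)) : Prop where
  norm : Normalizes (grp G hG) u
  lat : ∀ v, Lat v → Lat (u v)
  lat' : ∀ v, Lat v → Lat (u.symm v)
  pb : IsPullback u g
  pb' : IsPullback u.symm g.symm
  int : ∀ x ∈ integral (grp G hG), g x ∈ integral (grp G hG)
  int' : ∀ x ∈ integral (grp G hG), g.symm x ∈ integral (grp G hG)

theorem NfQ_of {g : NS (grp G hG) ≃ₗ[ℝ] NS (grp G hG)} {u : (Fin n → ℂ) ≃ₗ[ℂ] (Fin n → ℂ)}
    (hu : ∀ v, Lat v → Lat (u v)) (hp : IsPullback u g) {x : NS (grp G hG)} (hx : x ∈ NfQ hG) :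
    g x ∈ NfQ hG := by
  have h3 : ∀ v w, frm (up (g x)) v w = frm (up x) (u v) (u w) := by
    intro v w
    unfold frm
    rw [form_up, form_up, hp.1]
  obtain ⟨k1, k2, k3⟩ := hx
  refine ⟨fun v => ?_, by rw [coef_up, hp.2]; exact k2, fun v hv hv0 => ?_⟩
  · rw [h3]
    exact k1 _
  · rw [h3, coef_up, hp.2]
    exact k3 _ (hu v hv) (by simpa using hv0)

namespace IsPb

variable {g : NS (grp G hG) ≃ₗ[ℝ] NS (grp G hG)} {u : (Fin n → ℂ) ≃ₗ[ℂ] (Fin n → ℂ)}

theorem nf (h : IsPb hG g u) {x : NS (grp G hG)} (hx : x ∈ NfQ hG) : g x ∈ NfQ hG :=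
  NfQ_of h.lat h.pb hx

theorem nf' (h : IsPb hG g u) {x : NS (grp G hG)} (hx : x ∈ NfQ hG) : g.symm x ∈ NfQ hG :=
  NfQ_of h.lat' h.pb' hx

end IsPb

/-- The functional given by the lattice vector `w`. -/
noncomputable def phi (hG : PresLat G) (w : Fin n → ℂ) : NS (grp G hG) →ₗ[ℝ] ℝ :=
  (Pool.Agent.R895.phi 1 LinearMap.id w) ∘ₗ upL

theorem phi_apply (w : Fin n → ℂ) (x : NS (grp G hG)) :
    phi hG w x = (frm (up x) w w).re - coef x := rfl

section gens

variable [Fintype G] {F : Finset ((Fin n → ℂ) → (Fin n → ℂ) → ℂ)}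
  {y : ((Fin n → ℂ) → (Fin n → ℂ) → ℂ) → NS (grp G hG)} {e : NS (grp G hG)}

/-- The elements of the cone spanned by the forms in `F` and the class of `-Ẽ`. -/
theorem eq_sum (hy2 : ∀ z ∈ F, ∀ v w, frm (up (y z)) v w = c0 G * z v w)
    (hy3 : ∀ z ∈ F, coef (y z) = 0)
    (he2 : ∀ v w, frm (up e) v w = 0) (he3 : coef e = c0 G)
    (c : ((Fin n → ℂ) → (Fin n → ℂ) → ℂ) → ℝ) {x : NS (grp G hG)}
    (hx : ∀ v w, frm (up x) v w = ∑ z ∈ F, (c z : ℂ) * z v w) :
    x = (coef x / c0 G) • e + ∑ z ∈ F, (c z / c0 G) • y z := by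
  classical
  have hc0 : (c0 G : ℝ) ≠ 0 := (c0_real (G := G)).ne'
  have hc0' : (c0 G : ℂ) ≠ 0 := by exact_mod_cast (c0_pos (G := G)).ne'
  have hfs : ∀ (s : Finset ((Fin n → ℂ) → (Fin n → ℂ) → ℂ)) (v w : Fin n → ℂ), s ⊆ F →
      frm (up (∑ z ∈ s, (c z / c0 G) • y z)) v w = ∑ z ∈ s, (c z : ℂ) * z v w := by
    intro s v w
    induction s using Finset.induction_on with
    | empty => intro _; rw [Finset.sum_empty, Finset.sum_empty, up_zero, frm_zero]
    | insert z s hz ih =>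
      intro hs
      rw [Finset.sum_insert hz, Finset.sum_insert hz, up_add, frm_add,
        ih fun a ha => hs (Finset.mem_insert_of_mem ha), up_smul, frm_smul,
        hy2 z (hs (Finset.mem_insert_self _ _))]
      push_cast
      field_simp
  have hcs : ∀ s : Finset ((Fin n → ℂ) → (Fin n → ℂ) → ℂ), s ⊆ F →
      coef (∑ z ∈ s, (c z / c0 G) • y z) = 0 := by
    intro s
    induction s using Finset.induction_on with
    | empty => intro _; rw [Finset.sum_empty, coef_zero]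
    | insert z s hz ih =>
      intro hs
      rw [Finset.sum_insert hz, coef_add, ih fun a ha => hs (Finset.mem_insert_of_mem ha),
        coef_smul, hy3 z (hs (Finset.mem_insert_self _ _))]
      ring
  refine NS_ext (fun v w => ?_) ?_
  · rw [hx, up_add, frm_add, hfs F v w (Finset.Subset.refl _), up_smul, frm_smul, he2, mul_zero,
      zero_add]
  · rw [coef_add, hcs F (Finset.Subset.refl _), coef_smul, he3]
    field_simp
    ring

theorem re_c0 (z : ℂ) : ((c0 G : ℂ) * z).re = c0 G * z.re := re_natMul _ _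

theorem cone_props [DecidableEq (NS (grp G hG))] (hF : ∀ z ∈ F, Dat z ∧ ∀ v, 0 ≤ (z v v).re)
    (hy2 : ∀ z ∈ F, ∀ v w, frm (up (y z)) v w = c0 G * z v w)
    (hy3 : ∀ z ∈ F, coef (y z) = 0)
    (he2 : ∀ v w, frm (up e) v w = 0) (he3 : coef e = c0 G) {a : NS (grp G hG)}
    (ha : a ∈ cone (insert e (F.image y))) : (∀ v, 0 ≤ (frm (up a) v v).re) ∧ 0 ≤ coef a ∧
      ∀ w t : Fin n → ℂ, (∀ z ∈ F, (z t t).re ≤ (z w w).re) →
        (frm (up a) t t).re ≤ (frm (up a) w w).re := by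
  have hc0 := c0_real (G := G)
  refine cone_ind (p := fun a => (∀ v, 0 ≤ (frm (up a) v v).re) ∧ 0 ≤ coef a ∧
    ∀ w t : Fin n → ℂ, (∀ z ∈ F, (z t t).re ≤ (z w w).re) →
      (frm (up a) t t).re ≤ (frm (up a) w w).re) ?_ ?_ ?_ ?_ ha
  · refine ⟨fun v => ?_, le_of_eq coef_zero.symm, fun w t _ => ?_⟩
    · rw [up_zero, frm_zero, Complex.zero_re]
    · rw [up_zero, frm_zero, frm_zero]
  · rintro x y ⟨h1, h2, h3⟩ ⟨k1, k2, k3⟩
    refine ⟨fun v => ?_, by rw [coef_add]; exact add_nonneg h2 k2, fun w t hwt => ?_⟩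
    · rw [up_add, frm_add, Complex.add_re]
      exact add_nonneg (h1 v) (k1 v)
    · rw [up_add, frm_add, frm_add, Complex.add_re, Complex.add_re]
      exact add_le_add (h3 w t hwt) (k3 w t hwt)
  · rintro s x hs ⟨h1, h2, h3⟩
    refine ⟨fun v => ?_, by rw [coef_smul]; exact mul_nonneg hs h2, fun w t hwt => ?_⟩
    · rw [up_smul, frm_smul, Complex.re_ofReal_mul]
      exact mul_nonneg hs (h1 v)
    · rw [up_smul, frm_smul, frm_smul, Complex.re_ofReal_mul, Complex.re_ofReal_mul]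
      exact mul_le_mul_of_nonneg_left (h3 w t hwt) hs
  · intro a ha
    rcases Finset.mem_insert.1 ha with rfl | h
    · refine ⟨fun v => ?_, by rw [he3]; exact hc0.le, fun w t _ => ?_⟩
      · rw [he2, Complex.zero_re]
      · rw [he2, he2]
    · obtain ⟨z, hz, rfl⟩ := Finset.mem_image.1 h
      refine ⟨fun v => ?_, by rw [hy3 z hz], fun w t hwt => ?_⟩
      · rw [hy2 z hz, re_c0]
        exact mul_nonneg hc0.le ((hF z hz).2 v)
      · rw [hy2 z hz, hy2 z hz, re_c0, re_c0]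
        exact mul_le_mul_of_nonneg_left (hwt z hz) hc0.le

end gens

/-- **The covering.** -/
theorem covering [Fintype G] [Nonempty (Fin n)] (hG : PresLat G) :
    ∃ F₁ : Finset (NS (grp G hG)),
      (∀ a ∈ F₁, a ∈ LQ hG ∧ a ∈ NfQ hG) ∧
      ∀ x ∈ NfQ hG, (∃ t : ℝ, 0 < t ∧ ∀ v, t * (std v v).re ≤ (frm (up x) v v).re) →
        ∃ g u, IsPb hG g u ∧ g x ∈ cone F₁ := by
  classical
  obtain ⟨F, hF', hred⟩ := red_cls hG
  have hF : ∀ z ∈ F, Dat z ∧ ∀ v, 0 ≤ (z v v).re := fun z hz => (hF' z hz).1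
  choose! y hy1 hy2 hy3' using fun z (hz : z ∈ F) => exists_cls hG (hF z hz).1 (hF' z hz).2 0
  have hy3 : ∀ z ∈ F, coef (y z) = 0 := fun z hz => by rw [hy3' z hz]; norm_num
  have hzero : Dat fun _ _ : Fin n → ℂ => (0 : ℂ) :=
    ⟨⟨fun _ _ _ => by simp, fun _ _ _ => by simp, fun _ _ => by simp⟩, fun _ _ _ _ => IsEis.zero⟩
  obtain ⟨e, he1, he2', he3'⟩ := exists_cls hG hzero (fun _ _ _ _ => rfl) 1
  have he2 : ∀ v w, frm (up e) v w = 0 := fun v w => by rw [he2', mul_zero]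
  have he3 : coef e = c0 G := by rw [he3']; norm_num
  obtain ⟨T, hT, hTle⟩ := exists_vectors F hF
  have hS₀L : ∀ a ∈ insert e (F.image y), a ∈ LQ hG := by
    intro a ha
    rcases Finset.mem_insert.1 ha with rfl | h
    · exact AddSubgroup.subset_closure he1
    · obtain ⟨z, hz, rfl⟩ := Finset.mem_image.1 h
      exact AddSubgroup.subset_closure (hy1 z hz)
  obtain ⟨S', hS', hS'c⟩ := cut_int (insert e (F.image y)) hS₀L (T.image (phi hG)) (by
    intro φ hφ x hx
    obtain ⟨t, ht, rfl⟩ := Finset.mem_image.1 hφ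
    obtain ⟨D, n, hn⟩ := dat_of_LQ hx
    obtain ⟨k, hk⟩ := D.val (hT t ht).1
    exact ⟨k - n, by rw [phi_apply, hk, hn]; push_cast; rfl⟩)
  refine ⟨S', fun a ha => ⟨hS' a ha, ?_⟩, ?_⟩
  · obtain ⟨h1, h2⟩ := (hS'c a).1 (mem_cone_self ha)
    obtain ⟨k1, k2, k3⟩ := cone_props hF hy2 hy3 he2 he3 h1
    refine ⟨k1, k2, fun w hw hw0 => ?_⟩
    obtain ⟨t, ht, hle⟩ := hTle w hw hw0
    refine le_trans ?_ (k3 w t hle)
    have h3 := h2 _ (Finset.mem_image_of_mem (phi hG) ht)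
    rw [phi_apply] at h3
    rw [coef_up]
    linarith
  · intro x hx hpd
    obtain ⟨u, hu1, hu2, hu3, c, hc, hsum⟩ := hred x hpd
    have hu3' : ∀ g ∈ G, ∀ v, u.symm (g v) = g (u.symm v) := fun g hg v => by
      apply u.injective
      rw [u.apply_symm_apply, hu3 g hg, u.apply_symm_apply]
    have hu1' : ∀ v, Lat v → Lat (u.symm.symm v) := fun v hv => by
      rw [LinearEquiv.symm_symm]; exact hu1 v hv
    have hnm : Normalizes (grp G hG) u.symm := normalizes_of hu2 hu1' hu3'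
    obtain ⟨g, g1, g2, g3, g4⟩ := exists_pull hnm
    have hg : IsPb hG g u.symm := ⟨hnm, hu2, hu1', g1, g2, g3, g4⟩
    have hgx : ∀ v w, frm (up (g x)) v w = ∑ z ∈ F, (c z : ℂ) * z v w := by
      intro v w
      have h2 : frm (up (g x)) v w = frm (up x) (u.symm v) (u.symm w) := by
        unfold frm
        rw [form_up, form_up, g1.1]
      rw [h2, hsum]
      refine Finset.sum_congr rfl fun z _ => ?_
      rw [u.apply_symm_apply, u.apply_symm_apply]
    have h1 := eq_sum hy2 hy3 he2 he3 c hgx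
    have hcc := c0_real (G := G)
    have hc0 : 0 ≤ coef (g x) / c0 G := by
      rw [g1.2]
      exact div_nonneg hx.2.1 hcc.le
    refine ⟨g, u.symm, hg, (hS'c _).2 ⟨?_, fun φ hφ => ?_⟩⟩
    · rw [h1]
      refine cone_add (cone_smul (mem_cone_self (Finset.mem_insert_self _ _)) hc0)
        (mem_cone_of_sum F _ _ (fun z hz => Finset.mem_insert_of_mem
          (Finset.mem_image_of_mem _ hz)) fun z _ => div_nonneg (hc z) hcc.le)
    · obtain ⟨t, ht, rfl⟩ := Finset.mem_image.1 hφ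
      rw [phi_apply]
      have := (hg.nf hx).2.2 t (hT t ht).1 (hT t ht).2
      rw [coef_up] at this
      linarith

end Pool.Agent.T6.H34.EK
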