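import Pool.Agent.R895.Defs

/-!
# Blow-ups of `E^n` modulo arbitrary finite groups: definitions

`Γ` is a group of affine transformations of the complex vector space `V`. `X` is the quotient by `Γ` of
the blow-up `Ṽ` of `V` along the orbit `Γ 0`, that is, the blow-up of `V / Γ` in the image of `0`, if
`Γ` contains a lattice of translations with finite quotient and its stabiliser of `0` consists of
homotheties, and in general the quotient by the stabiliser `G` of `0` of the blow-up of a complex torus
at its origin. We write `Ẽ` for the exceptional divisor of `Ṽ → V`.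
-/

set_option autoImplicit false

namespace Pool.Agent.T6.H34.EK

open Filter Topology
open Pool.Agent.R895 (Lat BlBundle act)
open Pool.Agent.Y167 (AffGrp cone)
open Pool.Agent.Y167.CC (LinGrp Preserves IsFundDomain)

variable {V : Type*} [NormedAddCommGroup V] [NormedSpace ℂ V]

section group

/-- The group `G` maps `Λ` to itself. -/
def Pres (Λ : AddSubgroup V) (G : Subgroup (V ≃ₗ[ℂ] V)) : Prop := ∀ g ∈ G, ∀ v ∈ Λ, g v ∈ Λ

/-- `f` is of the form `v ↦ g v + l` where `g ∈ G` and `l ∈ Λ`. -/
def IsSemi (Λ : AddSubgroup V) (G : Subgroup (V ≃ₗ[ℂ] V)) (f : V ≃ᵃ[ℂ] V) : Prop :=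
  ∃ g ∈ G, ∃ l ∈ Λ, ∀ v, f v = g v + l

variable {Λ : AddSubgroup V} {G : Subgroup (V ≃ₗ[ℂ] V)}

theorem isSemi_one : IsSemi Λ G 1 :=
  ⟨1, G.one_mem, 0, Λ.zero_mem, fun v => by
    rw [add_zero]; rfl⟩

theorem isSemi_mul (h : Pres Λ G) {f f' : V ≃ᵃ[ℂ] V} (hf : IsSemi Λ G f) (hf' : IsSemi Λ G f') :
    IsSemi Λ G (f * f') := by
  obtain ⟨g, hg, l, hl, h1⟩ := hf
  obtain ⟨g', hg', l', hl', h1'⟩ := hf'
  refine ⟨g * g', G.mul_mem hg hg', g l' + l, Λ.add_mem (h g hg l' hl') hl, fun v => ?_⟩
  change f (f' v) = g (g' v) + (g l' + l)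
  rw [h1', h1, map_add, add_assoc]

theorem isSemi_inv (h : Pres Λ G) {f : V ≃ᵃ[ℂ] V} (hf : IsSemi Λ G f) : IsSemi Λ G f⁻¹ := by
  obtain ⟨g, hg, l, hl, h1⟩ := hf
  refine ⟨g⁻¹, G.inv_mem hg, -(g⁻¹ l), Λ.neg_mem (h _ (G.inv_mem hg) l hl), fun v => ?_⟩
  apply f.injective
  have h2 : f (f⁻¹ v) = v := f.apply_symm_apply v
  have h3 : ∀ w, g (g⁻¹ w) = w := fun w => g.apply_symm_apply w
  rw [h2, h1, map_add, map_neg, h3, h3, neg_add_cancel_right]

/-- The group of the affine transformations `v ↦ g v + l` of `V` where `g ∈ G` and `l ∈ Λ`, for a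
group `G` of linear automorphisms of `V` which maps `Λ` to itself. -/
def semi (Λ : AddSubgroup V) (G : Subgroup (V ≃ₗ[ℂ] V)) (h : Pres Λ G) : AffGrp V where
  carrier := {f | IsSemi Λ G f}
  one_mem' := isSemi_one
  mul_mem' := isSemi_mul h
  inv_mem' := isSemi_inv h

end group

/-- The lattice of the vectors whose coordinates are Eisenstein integers. -/
def eisLat (n : ℕ) : AddSubgroup (Fin n → ℂ) where
  carrier := {v | Lat v}
  zero_mem' := fun _ => Pool.Agent.R895.IsEis.zero
  add_mem' := fun h1 h2 i => (h1 i).add (h2 i)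
  neg_mem' := fun h i => (h i).neg

section grp

variable {n : ℕ}

/-- The group `G` maps the lattice `ℤ[ω]^n` to itself. -/
abbrev PresLat (G : Subgroup ((Fin n → ℂ) ≃ₗ[ℂ] (Fin n → ℂ))) : Prop := Pres (eisLat n) G

/-- The group of the affine transformations `v ↦ g v + l` of `ℂ^n` where `g ∈ G` and `l` is a vector
of Eisenstein integers. The quotient of `ℂ^n` by this group is `E^n / G` where `E = ℂ / ℤ[ω]`. -/
noncomputable abbrev grp (G : Subgroup ((Fin n → ℂ) ≃ₗ[ℂ] (Fin n → ℂ))) (hG : PresLat G) :
    AffGrp (Fin n → ℂ) := semi (eisLat n) G hG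

end grp

variable {Γ : AffGrp V}

/-- A holomorphic line bundle on `X`: its pullback to the blow-up of `V` along `Γ 0` is
`O(-k Ẽ)`, with the action of `Γ` given by the factor of automorphy `e`. The stabilisers of all
points act trivially on the fibres: for the points outside `Ẽ` this is the condition `stab` of
`BlBundle`, for the points of `Ẽ` it is the condition `eig`. Indeed, if `γ` fixes `0` and maps the
direction `u ≠ 0` to itself, `γ (t u) = t ζ u`, then it acts on the fibre of `O(-k Ẽ)` over this point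
as `ζ ^ (-k)`. -/
structure QBundle (Γ : AffGrp V) extends BlBundle Γ where
  eig : ∀ (γ : Γ) (u : V) (ζ : ℂ), u ≠ 0 → (∀ t : ℂ, act γ (t • u) = (t * ζ) • u) → e γ 0 = ζ ^ k

/-- `x` is the class of the line bundle `L`: its Chern form, and the coefficient `k` of `-Ẽ`. -/
def IsCls (L : QBundle Γ) (x : (V → V → ℂ) × ℝ) : Prop := L.IsChern x.1 ∧ x.2 = L.k

/-- The real vector space spanned by the classes of line bundles. -/
noncomputable def NSs (Γ : AffGrp V) : Submodule ℝ ((V → V → ℂ) × ℝ) :=
  Submodule.span ℝ {x | ∃ L : QBundle Γ, IsCls L x}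

/-- The space `N^1(X)` of numerical classes with real coefficients. -/
def NS (Γ : AffGrp V) : Type _ := NSs Γ

noncomputable instance : AddCommGroup (NS Γ) := Submodule.addCommGroup (NSs Γ)

noncomputable instance : Module ℝ (NS Γ) := Submodule.module (NSs Γ)

noncomputable instance : TopologicalSpace (NS Γ) :=
  instTopologicalSpaceSubtype (p := fun h => h ∈ NSs Γ)

/-- The hermitian form of the class `x`. -/
def form (x : NS Γ) : V → V → ℂ := x.1.1

/-- The coefficient of `-Ẽ` in the class `x`. -/
def coef (x : NS Γ) : ℝ := x.1.2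

/-- The integral classes: the classes of line bundles. -/
def integral (Γ : AffGrp V) : Set (NS Γ) := {x | ∃ L : QBundle Γ, IsCls L (form x, coef x)}

/-- The classes of semiample line bundles. -/
def semiample (Γ : AffGrp V) : Set (NS Γ) :=
  {x | ∃ L : QBundle Γ, IsCls L (form x, coef x) ∧ L.IsSemiample}

/-- The classes of effective Cartier divisors: the classes of line bundles which have a section, not
identically zero. -/
def effective (Γ : AffGrp V) : Set (NS Γ) :=
  {x | ∃ (L : QBundle Γ) (s : V → ℂ), IsCls L (form x, coef x) ∧ L.IsSection s ∧ ∃ v, s v ≠ 0}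

/-- The convex cone spanned by the set `A`. -/
def span (A : Set (NS Γ)) : Set (NS Γ) := {x | ∃ S : Finset (NS Γ), ↑S ⊆ A ∧ x ∈ cone S}

/-- The nef cone: the closure of the convex cone spanned by the classes of semiample line bundles.
(By Kleiman's criterion the nef cone is the closure of the ample cone.) -/
def nefCone (Γ : AffGrp V) : Set (NS Γ) := closure (span (semiample Γ))

/-- The effective cone: the convex cone spanned by the classes of effective divisors. (It is not
closed in general.) -/
def effCone (Γ : AffGrp V) : Set (NS Γ) := span (effective Γ)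

/-- `g` is the pullback `f^*` on `N^1(X)` by the automorphism of `X` induced by the linear
automorphism `f` of `V`. -/
def IsPullback (f : V ≃ₗ[ℂ] V) (g : NS Γ ≃ₗ[ℝ] NS Γ) : Prop :=
  (∀ (x : NS Γ) (u w : V), form (g x) u w = form x (f u) (f w)) ∧ ∀ x : NS Γ, coef (g x) = coef x

/-- The cone `Nef^e(X)` of nef and effective classes. -/
def nefEff (Γ : AffGrp V) : Set (NS Γ) := nefCone Γ ∩ effCone Γ

/-- `𝒢` is a group of linear automorphisms of `N^1(X)` which preserves the integral classes and the
cone of nef and effective classes, and which contains the pullbacks `f^*` by all automorphisms of `X`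
which are induced by linear automorphisms `f` of `V`. The image of `Aut(X)` has these properties. -/
structure IsAutGroup (𝒢 : LinGrp (NS Γ)) : Prop where
  int : Preserves 𝒢 (integral Γ)
  nef_eff : Preserves 𝒢 (nefEff Γ)
  lin : ∀ (f : V ≃ₗ[ℂ] V) (g : NS Γ ≃ₗ[ℝ] NS Γ),
    Pool.Agent.R895.Normalizes Γ f → IsPullback f g → g ∈ 𝒢

/-- There is a finite set `S` of integral classes such that the cone `Π` spanned by `S` consists of
nef effective classes and is a fundamental domain for the action of `𝒢` on the cone `Nef^e(X)`. -/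
def HasDomain (𝒢 : LinGrp (NS Γ)) : Prop :=
  ∃ S : Finset (NS Γ), ↑S ⊆ integral Γ ∧ cone S ⊆ nefEff Γ ∧
    IsFundDomain 𝒢 (nefEff Γ) (cone S)

end Pool.Agent.T6.H34.EK
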