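import Pool.Agent.T6.H34.EK.Cls

/-!
# The data for the fundamental domain
-/

set_option autoImplicit false
set_option maxHeartbeats 400000

namespace Pool.Agent.T6.H34.EK

open Filter Topology
open Pool.Agent.W594.SYZ2 (IsHermitian)
open Pool.Agent.R895 (Lat BlBundle act kum N1 N1s IsEis IsClass std frm kap Nf Dat cs_of_psd kap_pos
  kap_ne thB IsExt id_isExt exH exH_herm exH_int semiample_thB section_thB section_thB_zero
  frm_add frm_smul frm_sub frm_zero frm_herm std_dat std_herm std_int std_pos std_nonneg one_le_std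
  re_natMul le_std form_frm N1_ext' kap_im_eis xi)
open Pool.Agent.Y167 (AffGrp cone CData)

variable {n : ℕ} {G : Subgroup ((Fin n → ℂ) ≃ₗ[ℂ] (Fin n → ℂ))} {hG : PresLat G}
  {h : (Fin n → ℂ) → (Fin n → ℂ) → ℂ} [Fintype G]

theorem effective_cls [Nonempty (Fin n)] (hn0 : 2 ≤ n) (hn : n ≤ 4) (D : Dat h) (hi : Inv G h)
    (b : ℕ)
    (hb : (∀ v, v ≠ 0 → 0 < (h v v).re) ∧ (∀ v, Lat v → v ≠ 0 → (b : ℝ) ≤ (h v v).re) ∨
      b = 0 ∧ ∀ v, 0 ≤ (h v v).re) {y : NS (grp G hG)}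
    (h1 : ∀ u w, frm (up y) u w = c0 G * h u w) (h2 : coef y = c0 G * b) :
    ∃ N : ℕ, 1 ≤ N ∧ (N : ℝ) • y ∈ effective (grp G hG) := by
  have key : ∃ N : ℕ, 1 ≤ N ∧ ∃ s, ((thB 1 D.herm D.int b).pow N).IsSection s ∧ ∃ v, s v ≠ 0 := by
    rcases hb with ⟨hb1, hb2⟩ | ⟨rfl, hb⟩
    · exact thB_sec (exH_id D b)
        (section_thB (ρ := id) (m := 1) Function.injective_id hn0 hn D b hb1 hb2)
    · exact thB_sec (exH_id D 0) (section_thB_zero (ρ := id) (m := 1) D hb)
  obtain ⟨N, hN, s, hs, h0⟩ := section_qB hG D.herm D.int hi key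
  obtain ⟨L', hL', hc⟩ := pow_cls (cls_eq (D := D) (hi := hi) h1 h2) N
  refine ⟨N, hN, L', s, hc, ?_, h0⟩
  rw [hL']
  exact hs

section stdG

/-- The sum of the translates of the form. -/
noncomputable def avg (G : Subgroup ((Fin n → ℂ) ≃ₗ[ℂ] (Fin n → ℂ))) [Fintype G]
    (h : (Fin n → ℂ) → (Fin n → ℂ) → ℂ) (u w : Fin n → ℂ) : ℂ :=
  ∑ g : G, h ((g : (Fin n → ℂ) ≃ₗ[ℂ] (Fin n → ℂ)) u) ((g : (Fin n → ℂ) ≃ₗ[ℂ] (Fin n → ℂ)) w)

theorem avg_herm (hh : IsHermitian h) : IsHermitian (avg G h) := by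
  refine ⟨fun u v w => ?_, fun a v w => ?_, fun v w => ?_⟩
  · unfold avg
    rw [← Finset.sum_add_distrib]
    exact Finset.sum_congr rfl fun g _ => by rw [map_add, hh.add_left]
  · unfold avg
    rw [Finset.mul_sum]
    exact Finset.sum_congr rfl fun g _ => by rw [map_smul, hh.smul_left]
  · unfold avg
    rw [map_sum]
    exact Finset.sum_congr rfl fun g _ => hh.symm _ _

theorem avg_dat (hG : PresLat G) (D : Dat h) : Dat (avg G h) :=
  ⟨avg_herm D.herm, fun u w hu hw => IsEis.sum _ _ fun g _ =>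
    D.int _ _ (hG g g.2 u hu) (hG g g.2 w hw)⟩

theorem avg_inv (h : (Fin n → ℂ) → (Fin n → ℂ) → ℂ) : Inv G (avg G h) := by
  intro g hg u w
  unfold avg
  exact Fintype.sum_equiv (Equiv.mulRight (⟨g, hg⟩ : G)) _ _ fun g' => rfl

theorem avg_re (h : (Fin n → ℂ) → (Fin n → ℂ) → ℂ) (v : Fin n → ℂ) :
    (avg G h v v).re = ∑ g : G, (h ((g : (Fin n → ℂ) ≃ₗ[ℂ] (Fin n → ℂ)) v)
      ((g : (Fin n → ℂ) ≃ₗ[ℂ] (Fin n → ℂ)) v)).re := by
  unfold avg
  rw [Complex.re_sum]

theorem avg_of_inv (hi : Inv G h) (u w : Fin n → ℂ) :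
    avg G h u w = Fintype.card G * h u w := by
  unfold avg
  rw [Finset.sum_congr rfl fun (g : G) _ => hi g g.2 u w, Finset.sum_const, Finset.card_univ,
    nsmul_eq_mul]

theorem std_le_avg (v : Fin n → ℂ) : (std v v).re ≤ (avg G std v v).re := by
  rw [avg_re]
  refine le_trans (le_of_eq ?_) (Finset.single_le_sum (f := fun g : G =>
    (std ((g : (Fin n → ℂ) ≃ₗ[ℂ] (Fin n → ℂ)) v) ((g : (Fin n → ℂ) ≃ₗ[ℂ] (Fin n → ℂ)) v)).re)
      (fun g _ => std_nonneg _) (Finset.mem_univ (1 : G)))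
  rfl

theorem avg_le_std (G : Subgroup ((Fin n → ℂ) ≃ₗ[ℂ] (Fin n → ℂ))) [Fintype G] :
    ∃ C : ℝ, 0 < C ∧ ∀ v, (avg G std v v).re ≤ C * (std v v).re := by
  obtain ⟨C, hC, h1⟩ := le_std (avg_herm (G := G) (std_herm (r := n)))
  refine ⟨C + 1, by positivity, fun v => (h1 v).trans ?_⟩
  have := std_nonneg v
  linarith

end stdG

theorem re_twice (c : ℕ) (z : ℂ) : ((c : ℂ) * (((2 : ℕ) : ℂ) * z)).re = c * (2 * z.re) := by
  rw [re_natMul, re_natMul]
  push_cast
  ring

theorem exists_y₀ [Nonempty (Fin n)] (hG : PresLat G) :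
    ∃ y : NS (grp G hG), y ∈ integral (grp G hG) ∧
      (∀ u w, frm (up y) u w = c0 G * (((2 : ℕ) : ℂ) * avg G std u w)) ∧ coef y = c0 G := by
  obtain ⟨y, h1, h2, h3⟩ := exists_cls hG ((avg_dat hG std_dat).natMul 2) (fun g hg u w => by
    rw [avg_inv std g hg]) 1
  exact ⟨y, h1, h2, by rw [h3]; simp⟩

/-- The trace of the form of a class. -/
noncomputable def xiQ (hG : PresLat G) : NS (grp G hG) →ₗ[ℝ] ℝ := (xi 1 LinearMap.id) ∘ₗ upL

theorem y_int {y₀ : NS (grp G hG)}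
    (hy1 : ∀ u w, frm (up y₀) u w = c0 G * (((2 : ℕ) : ℂ) * avg G std u w)) (hy2 : coef y₀ = c0 G)
    (x : NS (grp G hG)) : ∃ C : ℝ, 0 < C ∧ C • y₀ - x ∈ NfQ hG := by
  obtain ⟨C, hC, h1⟩ := le_std (frm_herm (up x))
  have hre : ∀ v : Fin n → ℂ, (frm (up y₀) v v).re = c0 G * (2 * (avg G std v v).re) := by
    intro v
    rw [hy1, re_twice]
  have hc1 : (1 : ℝ) ≤ c0 G := by exact_mod_cast c0_pos (G := G)
  have hkey : ∀ v : Fin n → ℂ, 2 * (std v v).re ≤ (frm (up y₀) v v).re := by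
    intro v
    rw [hre]
    have h2 := std_le_avg (G := G) v
    have h3 := std_nonneg v
    nlinarith
  have hsub : ∀ v : Fin n → ℂ, (frm (up ((C + |coef x| + 1) • y₀ - x)) v v).re =
      (C + |coef x| + 1) * (frm (up y₀) v v).re - (frm (up x) v v).re := by
    intro v
    rw [up_sub, up_smul, frm_sub, frm_smul, Complex.sub_re, Complex.re_ofReal_mul]
  have hcoef : coef ((C + |coef x| + 1) • y₀ - x) = (C + |coef x| + 1) * c0 G - coef x := by
    have : coef ((C + |coef x| + 1) • y₀ - x) = (C + |coef x| + 1) * coef y₀ - coef x := rfl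
    rw [this, hy2]
  refine ⟨C + |coef x| + 1, by positivity, fun v => ?_, ?_, fun v hv hv0 => ?_⟩
  · rw [hsub]
    have h2 := std_nonneg v
    have h3 := h1 v
    have h4 := mul_nonneg (abs_nonneg (coef x)) h2
    have h5 := hkey v
    have h6 : (C + |coef x| + 1) * (2 * (std v v).re) ≤
        (C + |coef x| + 1) * (frm (up y₀) v v).re :=
      mul_le_mul_of_nonneg_left h5 (by positivity)
    nlinarith
  · rw [coef_up, hcoef]
    have := le_abs_self (coef x)
    have := abs_nonneg (coef x)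
    nlinarith
  · rw [hsub, coef_up, hcoef]
    have h2 := one_le_std hv hv0
    have h3 := h1 v
    have h5 := neg_abs_le (coef x)
    have h6 := abs_nonneg (coef x)
    have h7 := std_le_avg (G := G) v
    rw [hre]
    have h8 : (C + |coef x| + 1) * (c0 G * (std v v).re + c0 G * 1) ≤
        (C + |coef x| + 1) * (c0 G * (2 * (avg G std v v).re)) := by
      refine mul_le_mul_of_nonneg_left ?_ (by positivity)
      nlinarith
    have h9 : (C + |coef x| + 1) * (1 * (std v v).re) ≤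
        (C + |coef x| + 1) * (c0 G * (std v v).re) := by
      refine mul_le_mul_of_nonneg_left ?_ (by positivity)
      exact mul_le_mul_of_nonneg_right hc1 (by linarith)
    have h10 : |coef x| * 1 ≤ |coef x| * (std v v).re := mul_le_mul_of_nonneg_left h2 h6
    nlinarith

theorem span_integral : Submodule.span ℝ (integral (grp G hG)) = ⊤ := by
  rw [eq_top_iff]
  rintro ⟨x, hx⟩ -
  induction hx using Submodule.span_induction with
  | mem x hx => exact Submodule.subset_span hx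
  | zero => exact Submodule.zero_mem _
  | add x y _ _ h1 h2 => exact Submodule.add_mem _ h1 h2
  | smul t x _ h1 => exact Submodule.smul_mem _ t h1

theorem finite_NS : FiniteDimensional ℝ (NS (grp G hG)) := by
  have : FiniteDimensional ℝ (N1 (kum (Fin n) 1) (LinearMap.id : (Fin n → ℂ) →ₗ[ℂ] _)) :=
    Pool.Agent.R895.finite_N1
  exact Module.Finite.of_injective (upL (G := G) (hG := hG)) up_inj

/-- The data for the fundamental domain. -/
theorem exists_cdata (hn : 0 < n) {y₀ : NS (grp G hG)} (hy0 : y₀ ∈ integral (grp G hG))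
    (hy1 : ∀ u w, frm (up y₀) u w = c0 G * (((2 : ℕ) : ℂ) * avg G std u w))
    (hy2 : coef y₀ = c0 G) :
    ∃ Y : Finset (NS (grp G hG)), CData (LQ hG) (NfQ hG) (xiQ hG) y₀ Y := by
  classical
  have : Nonempty (Fin n) := ⟨⟨0, hn⟩⟩
  have hfin : FiniteDimensional ℝ (NS (grp G hG)) := finite_NS
  obtain ⟨y₁, k0, k1, k2⟩ := Pool.Agent.R895.exists_y₀ (ρ := id)
    (j := (LinearMap.id : (Fin n → ℂ) →ₗ[ℂ] (Fin n → ℂ))) 1 (id_isExt n) Function.injective_id
  obtain ⟨Y₁, D₁⟩ := Pool.Agent.R895.exists_cdata (id_isExt n) hn k0 k1 k2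
  have hyNf : y₀ ∈ NfQ hG := by
    have hre : ∀ v : Fin n → ℂ, (frm (up y₀) v v).re = c0 G * (2 * (avg G std v v).re) := by
      intro v
      rw [hy1, re_twice]
    have hc1 := c0_real (G := G)
    refine ⟨fun v => ?_, by rw [coef_up, hy2]; exact hc1.le, fun v hv hv0 => ?_⟩
    · rw [hre]
      have h1 := std_nonneg v
      have h2 := std_le_avg (G := G) v
      have h3 : 0 ≤ (avg G std v v).re := h1.trans h2
      positivity
    · rw [hre, coef_up, hy2]
      have h1 := one_le_std hv hv0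
      have h2 := std_le_avg (G := G) v
      nlinarith
  have hyL : y₀ ∈ LQ hG := AddSubgroup.subset_closure hy0
  obtain ⟨t, ht, htspan, htli⟩ := exists_linearIndependent ℝ (integral (grp G hG))
  have htfin : t.Finite := htli.setFinite
  have hchoose : ∀ x : NS (grp G hG), ∃ n : ℕ, (n : ℝ) • y₀ - x ∈ NfQ hG := by
    intro x
    obtain ⟨C, hC, h1⟩ := y_int hy1 hy2 x
    refine ⟨⌈C⌉₊, ?_⟩
    have h2 : ((⌈C⌉₊ : ℝ) - C) • y₀ ∈ NfQ hG := NfQ_smul (sub_nonneg.2 (Nat.le_ceil C)) hyNf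
    have h3 := NfQ_add h2 h1
    have h4 : ((⌈C⌉₊ : ℝ) - C) • y₀ + (C • y₀ - x) = (⌈C⌉₊ : ℝ) • y₀ - x := by
      module
    rwa [h4] at h3
  choose nf hnf using hchoose
  refine ⟨insert y₀ (htfin.toFinset.image fun x => (nf x : ℝ) • y₀ - x),
    { add := fun x hx y hy => NfQ_add hx hy
      smul := fun t ht x hx => NfQ_smul ht hx
      xi_int := fun x hx => D₁.xi_int (up x) (up_LQ hx)
      xi_pos := fun x hx hx0 => D₁.xi_pos (up x) hx fun h0 => hx0 (up_inj (h0.trans up_zero.symm))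
      fin := fun C => ?_
      y_L := hyL
      y_N := hyNf
      y_int := y_int hy1 hy2
      dom := fun η => ?_
      sep := fun x hx => ?_
      Y_mem := fun y hy => ?_
      Y_span := fun φ hφ => ?_ }⟩
  · refine Set.Finite.subset ((D₁.fin C).preimage up_inj.injOn) fun x hx => ?_
    exact ⟨up_LQ hx.1, hx.2.1, hx.2.2⟩
  · obtain ⟨g, hg⟩ := LinearMap.exists_leftInverse_of_injective (upL (G := G) (hG := hG))
      (LinearMap.ker_eq_bot.2 up_inj)
    obtain ⟨C, hC⟩ := D₁.dom (η ∘ₗ g)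
    refine ⟨C, fun x hx => ?_⟩
    have h1 := hC (up x) hx
    have h2 : (η ∘ₗ g) (up x) = η x := by
      change η (g (upL x)) = η x
      rw [show g (upL x) = x from LinearMap.congr_fun hg x]
    rw [h2] at h1
    exact h1
  · obtain ⟨η, h1, h2⟩ := D₁.sep (up x) fun h0 => hx (up_inj (h0.trans up_zero.symm))
    exact ⟨η ∘ₗ upL, fun y hy => h1 (up y) (up_LQ hy), h2⟩
  · rcases Finset.mem_insert.1 hy with rfl | h
    · exact ⟨hyL, hyNf⟩
    · obtain ⟨x, hx, rfl⟩ := Finset.mem_image.1 h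
      rw [htfin.mem_toFinset] at hx
      refine ⟨AddSubgroup.sub_mem _ ?_ (AddSubgroup.subset_closure (ht hx)), hnf x⟩
      rw [Nat.cast_smul_eq_nsmul]
      exact AddSubgroup.nsmul_mem _ hyL _
  · have h0 : φ y₀ = 0 := hφ _ (Finset.mem_insert_self _ _)
    have h1 : ∀ x ∈ t, φ x = 0 := by
      intro x hx
      have h2 := hφ ((nf x : ℝ) • y₀ - x)
        (Finset.mem_insert_of_mem (Finset.mem_image_of_mem _ (htfin.mem_toFinset.2 hx)))
      rw [map_sub, map_smul φ (nf x : ℝ), h0, smul_zero, zero_sub, neg_eq_zero] at h2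
      exact h2
    have h2 : (⊤ : Submodule ℝ (NS (grp G hG))) ≤ LinearMap.ker φ := by
      rw [← span_integral, ← htspan, Submodule.span_le]
      intro x hx
      exact h1 x hx
    exact LinearMap.ker_eq_top.1 (top_le_iff.1 h2)

end Pool.Agent.T6.H34.EK
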