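import Pool.Agent.T6.H34.EK.Core

/-!
# The nef cone and the effective cone
-/

set_option autoImplicit false
set_option maxHeartbeats 400000

namespace Pool.Agent.T6.H34.EK

open Filter Topology
open Pool.Agent.W594.SYZ2 (IsHermitian)
open Pool.Agent.R895 (Lat BlBundle act kum N1 N1s IsEis IsClass std frm kap Nf Dat cs_of_psd kap_pos
  kap_ne thB IsExt id_isExt lat exists_basis dat_of_isInt re_kap_div Normalizes
  differentiable_equiv cut_int exists_vectors exists_ker exists_lower isClosed_Nf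
  frm_add frm_smul frm_sub frm_zero frm_herm std_dat std_herm std_int std_pos std_nonneg one_le_std
  re_natMul le_std form_frm N1_ext' kap_im_eis xi)
open Pool.Agent.Y167 (AffGrp cone CData Pol Cp cone_ind cone_add cone_smul cone_sum cone_le
  mem_cone_self mem_cone_of_sum zero_mem_cone cone_cut cone_image cone_mono)

section top

variable {V : Type*} [NormedAddCommGroup V] [NormedSpace ℂ V] {Γ : AffGrp V}

instance : IsTopologicalAddGroup (NS Γ) :=
  inferInstanceAs (IsTopologicalAddGroup (NSs Γ))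

instance : ContinuousSMul ℝ (NS Γ) :=
  inferInstanceAs (ContinuousSMul ℝ (NSs Γ))

theorem span_add {A : Set (NS Γ)} {x y : NS Γ} (hx : x ∈ span A) (hy : y ∈ span A) :
    x + y ∈ span A := by
  classical
  obtain ⟨S, hS, hx⟩ := hx
  obtain ⟨T, hT, hy⟩ := hy
  refine ⟨S ∪ T, ?_, cone_add (cone_mono Finset.subset_union_left hx)
    (cone_mono Finset.subset_union_right hy)⟩
  rw [Finset.coe_union]
  exact Set.union_subset hS hT

theorem span_smul {A : Set (NS Γ)} {x : NS Γ} (hx : x ∈ span A) {t : ℝ} (ht : 0 ≤ t) :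
    t • x ∈ span A := by
  obtain ⟨S, hS, hx⟩ := hx
  exact ⟨S, hS, cone_smul hx ht⟩

theorem span_zero {A : Set (NS Γ)} : (0 : NS Γ) ∈ span A :=
  ⟨∅, by simp, zero_mem_cone _⟩

theorem span_self {A : Set (NS Γ)} {x : NS Γ} (hx : x ∈ A) : x ∈ span A :=
  ⟨{x}, by simpa using hx, mem_cone_self (Finset.mem_singleton_self x)⟩

theorem nef_add {x y : NS Γ} (hx : x ∈ nefCone Γ) (hy : y ∈ nefCone Γ) :
    x + y ∈ nefCone Γ :=
  map_mem_closure₂ continuous_add hx hy fun _ ha _ hb => span_add ha hb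

theorem nef_smul {x : NS Γ} (hx : x ∈ nefCone Γ) {t : ℝ} (ht : 0 ≤ t) :
    t • x ∈ nefCone Γ :=
  map_mem_closure (continuous_const_smul t) hx fun _ ha => span_smul ha ht

theorem nef_zero : (0 : NS Γ) ∈ nefCone Γ := subset_closure span_zero

theorem cone_nef {S : Finset (NS Γ)} (hS : ∀ a ∈ S, a ∈ nefCone Γ) {x : NS Γ}
    (hx : x ∈ cone S) : x ∈ nefCone Γ :=
  cone_ind (p := fun x => x ∈ nefCone Γ) nef_zero (fun _ _ h1 h2 => nef_add h1 h2)
    (fun _ _ ht h => nef_smul h ht) hS hx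

theorem cone_span {S : Finset (NS Γ)} {A : Set (NS Γ)} (hS : ∀ a ∈ S, a ∈ span A) {x : NS Γ}
    (hx : x ∈ cone S) : x ∈ span A :=
  cone_ind (p := fun x => x ∈ span A) span_zero (fun _ _ h1 h2 => span_add h1 h2)
    (fun _ _ ht h => span_smul h ht) hS hx

/-- A limit along a ray. -/
theorem mem_closed {A : Set (NS Γ)} (hA : IsClosed A) {x y : NS Γ}
    (h : ∀ n : ℕ, x + (1 / ((n : ℝ) + 1)) • y ∈ A) : x ∈ A := by
  have h1 : Tendsto (fun n : ℕ => x + (1 / ((n : ℝ) + 1)) • y) atTop (𝓝 (x + (0 : ℝ) • y)) :=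
    (tendsto_one_div_add_atTop_nhds_zero_nat.smul_const y).const_add x
  rw [zero_smul, add_zero] at h1
  exact hA.mem_of_tendsto h1 (Eventually.of_forall h)

end top

variable {n : ℕ} {G : Subgroup ((Fin n → ℂ) ≃ₗ[ℂ] (Fin n → ℂ))} {hG : PresLat G}
  {h : (Fin n → ℂ) → (Fin n → ℂ) → ℂ}

theorem continuous_up : Continuous (up (G := G) (hG := hG)) := by
  have h1 : Continuous fun x : NS (grp G hG) => x.1 := continuous_subtype_val
  exact Continuous.subtype_mk h1 _

theorem isClosed_NfQ : IsClosed (NfQ hG) :=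
  (isClosed_Nf (m := 1) (j := LinearMap.id)).preimage continuous_up

theorem nefCone_le [Nonempty (Fin n)] : nefCone (grp G hG) ⊆ NfQ hG := by
  refine closure_minimal ?_ isClosed_NfQ
  rintro x ⟨S, hS, hx⟩
  exact cone_ind (p := fun x => x ∈ NfQ hG) NfQ_zero (fun _ _ h1 h2 => NfQ_add h1 h2)
    (fun _ _ ht h => NfQ_smul ht h) (fun a ha => (mem_NfQ a).2
      (Pool.Agent.R895.semiample_Nf (id_isExt n) Function.injective_id (up_semiample (hS ha)))) hx

theorem coef_nat {a : NS (grp G hG)} (ha : a ∈ NfQ hG) {n : ℤ} (hn : coef a = n) :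
    ∃ b : ℕ, coef a = b := by
  have h1 : 0 ≤ coef a := ha.2.1
  rw [hn] at h1
  have h2 : 0 ≤ n := by exact_mod_cast h1
  obtain ⟨b, rfl⟩ := Int.eq_ofNat_of_zero_le h2
  exact ⟨b, by rw [hn]; simp⟩

variable [Fintype G] [Nonempty (Fin n)]

theorem inv_comb {h h' : (Fin n → ℂ) → (Fin n → ℂ) → ℂ} (hi : Inv G h) (hi' : Inv G h') (a b : ℂ) :
    Inv G fun u w => a * h u w + b * h' u w := fun g hg u w => by
  dsimp only
  rw [hi g hg, hi' g hg]

/-- An integral class in the cone `NfQ` is nef. -/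
theorem nef_of_int (hn : n ≤ 4) {a : NS (grp G hG)} (ha : a ∈ LQ hG) (haN : a ∈ NfQ hG) :
    a ∈ nefCone (grp G hG) := by
  obtain ⟨y₀, -, hy1, hy2⟩ := exists_y₀ hG
  obtain ⟨D, k, hk⟩ := dat_of_LQ ha
  obtain ⟨b, hb⟩ := coef_nat haN hk
  refine mem_closed (y := y₀) isClosed_closure fun k => subset_closure ?_
  set K : ℕ := k + 1 with hK
  have hKr : ((K : ℕ) : ℝ) = (k : ℝ) + 1 := by rw [hK]; push_cast; rfl
  have hK0 : (0 : ℝ) < K := by rw [hKr]; positivity
  have hcc := c0_real (G := G)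
  have hc1 : (1 : ℝ) ≤ c0 G := by exact_mod_cast c0_pos (G := G)
  have D' : Dat fun u w => (K : ℂ) * frm (up a) u w + ((2 * c0 G : ℕ) : ℂ) * avg G std u w :=
    (D.natMul K).add ((avg_dat hG std_dat).natMul (2 * c0 G))
  have hi' : Inv G fun u w => (K : ℂ) * frm (up a) u w + ((2 * c0 G : ℕ) : ℂ) * avg G std u w :=
    inv_comb (frm_inv a) (avg_inv std) _ _
  have hre : ∀ v, ((K : ℂ) * frm (up a) v v + ((2 * c0 G : ℕ) : ℂ) * avg G std v v).re =
      K * (frm (up a) v v).re + 2 * c0 G * (avg G std v v).re := by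
    intro v
    rw [Complex.add_re, re_natMul, re_natMul]
    push_cast
    ring
  have hsa : (c0 G : ℝ) • ((K : ℝ) • a + y₀) ∈ semiample (grp G hG) := by
    refine semiample_cls hn D' hi' (K * b + c0 G) (fun v hv => ?_) (fun v hv hv0 => ?_)
      (fun u w => ?_) ?_
    · rw [hre]
      have h1 := haN.1 v
      have h2 := std_pos hv
      have h3 := std_le_avg (G := G) v
      have h4 : 0 < (avg G std v v).re := lt_of_lt_of_le h2 h3
      positivity
    · rw [hre]
      have h1 := haN.2.2 v hv hv0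
      rw [coef_up, hb] at h1
      have h2 := one_le_std hv hv0
      have h3 := std_le_avg (G := G) v
      have h4 : (K : ℝ) * b ≤ K * (frm (up a) v v).re := mul_le_mul_of_nonneg_left h1 hK0.le
      have h5 : (c0 G : ℝ) * 1 ≤ c0 G * (avg G std v v).re :=
        mul_le_mul_of_nonneg_left (h2.trans h3) hcc.le
      push_cast
      nlinarith
    · rw [up_smul, up_add, up_smul, frm_smul, frm_add, frm_smul, hy1]
      push_cast
      ring
    · rw [coef_smul, coef_add, coef_smul, hb, hy2]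
      push_cast
      ring
  have h1 := span_smul (span_self hsa) (t := 1 / (c0 G * K)) (by positivity)
  have h2 : (1 / (c0 G * (K : ℝ))) • (c0 G : ℝ) • ((K : ℝ) • a + y₀) =
      a + (1 / ((k : ℝ) + 1)) • y₀ := by
    rw [← hKr, smul_smul, smul_add, smul_smul]
    have e1 : 1 / (c0 G * (K : ℝ)) * c0 G * K = 1 := by field_simp
    have e2 : 1 / (c0 G * (K : ℝ)) * c0 G = 1 / K := by field_simp
    rw [e1, e2, one_smul]
  rwa [h2] at h1

/-- An integral class in the cone `NfQ` is effective. -/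
theorem eff_of_int (hn0 : 2 ≤ n) (hn : n ≤ 4) {a : NS (grp G hG)} (ha : a ∈ LQ hG)
    (haN : a ∈ NfQ hG) : a ∈ effCone (grp G hG) := by
  obtain ⟨D, k, hk⟩ := dat_of_LQ ha
  obtain ⟨b, hb⟩ := coef_nat haN hk
  have hcc := c0_real (G := G)
  have key : (∀ v, v ≠ 0 → 0 < (frm (up a) v v).re) ∧
      (∀ v, Lat v → v ≠ 0 → (b : ℝ) ≤ (frm (up a) v v).re) ∨
        b = 0 ∧ ∀ v, 0 ≤ (frm (up a) v v).re := by
    by_cases hpd : ∀ v, v ≠ 0 → 0 < (frm (up a) v v).re
    · exact Or.inl ⟨hpd, fun v hv hv0 => by rw [← hb]; exact haN.2.2 v hv hv0⟩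
    · push Not at hpd
      obtain ⟨v, hv, hv0⟩ := hpd
      obtain ⟨w, hw, hw0, hww⟩ := exists_ker D haN.1 hv (le_antisymm hv0 (haN.1 v))
      have h1 := haN.2.2 w hw hw0
      rw [coef_up, hb, hww] at h1
      refine Or.inr ⟨?_, haN.1⟩
      have h2 : b ≤ 0 := by exact_mod_cast h1
      omega
  obtain ⟨N, hN, heff⟩ := effective_cls (G := G) (hG := hG) hn0 hn D (frm_inv a) b key
    (y := (c0 G : ℝ) • a)
    (fun u w => by rw [up_smul, frm_smul]; push_cast; ring) (by rw [coef_smul, hb])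
  have hNr : (0 : ℝ) < N := by exact_mod_cast hN
  have h1 := span_smul (span_self heff) (t := 1 / (c0 G * N)) (by positivity)
  have h2 : (1 / (c0 G * (N : ℝ))) • (N : ℝ) • (c0 G : ℝ) • a = a := by
    rw [smul_smul, smul_smul]
    have e1 : 1 / (c0 G * (N : ℝ)) * N * c0 G = 1 := by field_simp
    rw [e1, one_smul]
  rwa [h2] at h1

/-- The element of a cone of integral classes of `NfQ`. -/
theorem Cp_le (hn0 : 2 ≤ n) (hn : n ≤ 4) {x : NS (grp G hG)}
    (hx : x ∈ Cp (LQ hG) (NfQ hG)) : x ∈ nefCone (grp G hG) ∩ effCone (grp G hG) := by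
  obtain ⟨S, hS, hx⟩ := hx
  exact ⟨cone_nef (fun a ha => nef_of_int hn (hS a ha).1 (hS a ha).2) hx,
    cone_span (fun a ha => eff_of_int hn0 hn (hS a ha).1 (hS a ha).2) hx⟩

/-- A class whose pullback is spanned by integral classes of `Nf`. -/
theorem Cp_of_up {x : NS (grp G hG)}
    (hx : up x ∈ Cp (AddSubgroup.closure (Pool.Agent.R895.integral (kum (Fin n) 1)
      (LinearMap.id : (Fin n → ℂ) →ₗ[ℂ] (Fin n → ℂ)))) (Nf 1 LinearMap.id)) :
    x ∈ Cp (LQ hG) (NfQ hG) := by
  classical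
  obtain ⟨S, hS, c, hc, hxc⟩ := hx
  have hD : ∀ a ∈ S, Dat (frm a) ∧ ∃ b : ℕ, Pool.Agent.R895.coef a = b := fun a ha => by
    obtain ⟨D, k, hk⟩ := Pool.Agent.R895.eis_of_mem (id_isExt n) (hS a ha).1
    exact ⟨D, Pool.Agent.R895.coef_nat (hS a ha).2 hk⟩
  choose! b hb using fun a ha => (hD a ha).2
  choose! y hy1 hy2 hy3 using fun a (ha : a ∈ S) =>
    exists_cls hG (avg_dat hG (hD a ha).1) (avg_inv (G := G) (frm a)) (Fintype.card G * b a)
  have hcc := c0_real (G := G)
  have hcG : (0 : ℝ) < Fintype.card G := by exact_mod_cast Fintype.card_pos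
  have hcc' : (c0 G : ℂ) ≠ 0 := by exact_mod_cast (c0_pos (G := G)).ne'
  have hcG' : (Fintype.card G : ℂ) ≠ 0 := by exact_mod_cast Fintype.card_ne_zero (α := G)
  refine ⟨S.image y, fun z hz => ?_, ?_⟩
  · obtain ⟨a, ha, rfl⟩ := Finset.mem_image.1 hz
    have haN := (hS a ha).2
    refine ⟨AddSubgroup.subset_closure (hy1 a ha), fun v => ?_, ?_, fun v hv hv0 => ?_⟩
    · rw [hy2 a ha, re_natMul, avg_re]
      exact mul_nonneg hcc.le (Finset.sum_nonneg fun g _ => haN.1 _)
    · rw [coef_up, hy3 a ha]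
      positivity
    · rw [hy2 a ha, re_natMul, avg_re, coef_up, hy3 a ha]
      refine mul_le_mul_of_nonneg_left ?_ hcc.le
      push_cast
      rw [← hb a ha, ← nsmul_eq_mul, ← Finset.card_univ, ← Finset.sum_const]
      exact Finset.sum_le_sum fun g _ => haN.2.2 _ (hG g g.2 v hv) (by simpa using hv0)
  · have h1 : x = ∑ a ∈ S, (c a / (c0 G * Fintype.card G)) • y a := by
      have hf : ∀ (s : Finset (N1 (kum (Fin n) 1)
          (LinearMap.id : (Fin n → ℂ) →ₗ[ℂ] (Fin n → ℂ)))) (v w : Fin n → ℂ), s ⊆ S →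
          frm (up (∑ a ∈ s, (c a / (c0 G * Fintype.card G)) • y a)) v w =
            (Fintype.card G : ℂ)⁻¹ * avg G (frm (∑ a ∈ s, c a • a)) v w := by
        intro s v w
        induction s using Finset.induction_on with
        | empty =>
          intro _
          rw [Finset.sum_empty, Finset.sum_empty, up_zero, frm_zero]
          unfold avg
          simp [frm_zero]
        | insert a s ha ih =>
          intro hs
          have e1 : avg G (frm (∑ a ∈ insert a s, c a • a)) v w =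
              c a * avg G (frm a) v w + avg G (frm (∑ a ∈ s, c a • a)) v w := by
            unfold avg
            rw [Finset.sum_insert ha, Finset.mul_sum, ← Finset.sum_add_distrib]
            exact Finset.sum_congr rfl fun g _ => by rw [frm_add, frm_smul]
          rw [Finset.sum_insert ha, up_add, frm_add,
            ih fun a ha => hs (Finset.mem_insert_of_mem ha), up_smul, frm_smul,
            hy2 a (hs (Finset.mem_insert_self _ _)), e1]
          push_cast
          field_simp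
      have hcs : ∀ s : Finset (N1 (kum (Fin n) 1)
          (LinearMap.id : (Fin n → ℂ) →ₗ[ℂ] (Fin n → ℂ))), s ⊆ S →
          coef (∑ a ∈ s, (c a / (c0 G * Fintype.card G)) • y a) =
            Pool.Agent.R895.coef (∑ a ∈ s, c a • a) := by
        intro s
        induction s using Finset.induction_on with
        | empty =>
          intro _
          rw [Finset.sum_empty, Finset.sum_empty, coef_zero, Pool.Agent.R895.coef_zero]
        | insert a s ha ih =>
          intro hs
          have ha' := hs (Finset.mem_insert_self a s)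
          rw [Finset.sum_insert ha, Finset.sum_insert ha, coef_add,
            ih fun a ha => hs (Finset.mem_insert_of_mem ha),
            coef_smul, hy3 a ha', Pool.Agent.R895.coef_add, Pool.Agent.R895.coef_smul, hb a ha']
          push_cast
          field_simp
      refine NS_ext (fun v w => ?_) ?_
      · rw [hf S v w (Finset.Subset.refl _), ← hxc, avg_of_inv (frm_inv x)]
        field_simp
      · rw [hcs S (Finset.Subset.refl _), ← hxc]
        rfl
    rw [h1]
    exact mem_cone_of_sum S _ _ (fun a ha => Finset.mem_image_of_mem _ ha)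
      fun a _ => div_nonneg (hc a) (by positivity)

theorem up_span {A : Set (NS (grp G hG))} {B : Set (N1 (kum (Fin n) 1)
    (LinearMap.id : (Fin n → ℂ) →ₗ[ℂ] (Fin n → ℂ)))} (hAB : ∀ a ∈ A, up a ∈ B)
    {x : NS (grp G hG)} (hx : x ∈ span A) : up x ∈ Pool.Agent.R895.span B := by
  obtain ⟨S, hS, hx⟩ := hx
  refine cone_ind (p := fun x => up x ∈ Pool.Agent.R895.span B) ?_ ?_ ?_ ?_ hx
  · rw [up_zero]
    exact Pool.Agent.R895.span_zero
  · intro x y h1 h2
    rw [up_add]
    exact Pool.Agent.R895.span_add h1 h2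
  · intro t x ht h1
    rw [up_smul]
    exact Pool.Agent.R895.span_smul h1 ht
  · intro a ha
    exact Pool.Agent.R895.span_self (hAB a (hS ha))

theorem up_nef {x : NS (grp G hG)} (hx : x ∈ nefCone (grp G hG)) :
    up x ∈ Pool.Agent.R895.nefCone (kum (Fin n) 1)
      (LinearMap.id : (Fin n → ℂ) →ₗ[ℂ] (Fin n → ℂ)) := by
  refine map_mem_closure continuous_up hx fun y hy => ?_
  exact up_span (fun a ha => up_semiample ha) hy

theorem up_eff {x : NS (grp G hG)} (hx : x ∈ effCone (grp G hG)) :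
    up x ∈ Pool.Agent.R895.effCone (kum (Fin n) 1)
      (LinearMap.id : (Fin n → ℂ) →ₗ[ℂ] (Fin n → ℂ)) := by
  exact up_span (fun a ha => up_effective ha) hx

theorem mem_Cp_iff (hn0 : 2 ≤ n) (hn : n ≤ 4) (x : NS (grp G hG)) :
    x ∈ Cp (LQ hG) (NfQ hG) ↔ x ∈ nefCone (grp G hG) ∩ effCone (grp G hG) :=
  ⟨fun h => Cp_le hn0 hn h, fun h => Cp_of_up
    ((Pool.Agent.R895.mem_Cp_iff (id_isExt n) Function.injective_id hn0 hn (up x)).2
      ⟨up_nef h.1, up_eff h.2⟩)⟩

/-- The nef cone. -/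
theorem nefCone_eq (hn : n ≤ 4) : nefCone (grp G hG) = NfQ hG := by
  refine Set.Subset.antisymm nefCone_le fun x hx => ?_
  obtain ⟨y₀, hy0, hy1, hy2⟩ := exists_y₀ hG
  have hcc := c0_real (G := G)
  have hre : ∀ v : Fin n → ℂ, (frm (up y₀) v v).re = c0 G * (2 * (avg G std v v).re) := by
    intro v
    rw [hy1, re_twice]
  have hyN : y₀ ∈ NfQ hG := by
    refine ⟨fun v => ?_, by rw [coef_up, hy2]; exact hcc.le, fun v hv hv0 => ?_⟩
    · rw [hre]
      have h1 := std_nonneg v
      have h2 := std_le_avg (G := G) v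
      have h3 : 0 ≤ (avg G std v v).re := h1.trans h2
      positivity
    · rw [hre, coef_up, hy2]
      have h1 := one_le_std hv hv0
      have h2 := std_le_avg (G := G) v
      nlinarith
  refine mem_closed (y := y₀) isClosed_closure fun k => ?_
  have hk : (0 : ℝ) < 1 / ((k : ℝ) + 1) := by positivity
  have h1 : up (x + (1 / ((k : ℝ) + 1)) • y₀) ∈ Cp (AddSubgroup.closure
      (Pool.Agent.R895.integral (kum (Fin n) 1)
        (LinearMap.id : (Fin n → ℂ) →ₗ[ℂ] (Fin n → ℂ)))) (Nf 1 LinearMap.id) := by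
    have h0 : x + (1 / ((k : ℝ) + 1)) • y₀ ∈ NfQ hG := NfQ_add hx (NfQ_smul hk.le hyN)
    rw [mem_NfQ] at h0
    refine Pool.Agent.R895.Cp_of_pd (id_isExt n) Function.injective_id
      h0 ⟨1 / ((k : ℝ) + 1) * (c0 G * 2), by positivity, fun v => ?_⟩
    rw [up_add, up_smul, frm_add, Complex.add_re, frm_smul, Complex.re_ofReal_mul, hre]
    have h2 := hx.1 v
    have h3 := std_le_avg (G := G) v
    have h4 : 1 / ((k : ℝ) + 1) * (c0 G * 2) * (std v v).re ≤
        1 / ((k : ℝ) + 1) * (c0 G * 2) * (avg G std v v).re :=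
      mul_le_mul_of_nonneg_left h3 (by positivity)
    linarith
  obtain ⟨S, hS, h2⟩ := Cp_of_up h1
  exact cone_nef (fun a ha => nef_of_int hn (hS a ha).1 (hS a ha).2) h2

/-- The multiple `c₀ a` of an element of the group spanned by integral classes is integral if the
coefficient is nonnegative. -/
theorem c0_int {a : NS (grp G hG)} (ha : a ∈ LQ hG) (haN : a ∈ NfQ hG) :
    (c0 G : ℝ) • a ∈ integral (grp G hG) := by
  obtain ⟨D, k, hk⟩ := dat_of_LQ ha
  obtain ⟨b, hb⟩ := coef_nat haN hk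
  obtain ⟨y, h1, h2, h3⟩ := exists_cls hG D (frm_inv a) b
  have h4 : (c0 G : ℝ) • a = y := by
    refine NS_ext (fun u w => ?_) ?_
    · rw [up_smul, frm_smul, h2]
      push_cast
      ring
    · rw [coef_smul, h3, hb]
  rw [h4]
  exact h1

end Pool.Agent.T6.H34.EK
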