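import Pool.Agent.T6.H34.EK.Geo

/-!
# Reduction theory and pullbacks
-/

set_option autoImplicit false
set_option maxHeartbeats 400000

namespace Pool.Agent.T6.H34.EK

open Filter Topology
open Pool.Agent.W594.SYZ2 (IsHermitian)
open Pool.Agent.R895 (Lat BlBundle act kum N1 N1s IsEis IsClass std frm kap Nf Dat cs_of_psd kap_pos
  kap_ne thB IsExt id_isExt lat exists_basis dat_of_isInt re_kap_div Normalizes cjg cjg_apply
  cjg_mul pullB differentiable_equiv
  frm_add frm_smul frm_sub frm_zero frm_herm std_dat std_herm std_int std_pos std_nonneg one_le_std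
  re_natMul le_std form_frm N1_ext' kap_im_eis xi)
open Pool.Agent.Y167 (AffGrp cone CData Pol)

variable {n : ℕ} {G : Subgroup ((Fin n → ℂ) ≃ₗ[ℂ] (Fin n → ℂ))} {hG : PresLat G}
  {h : (Fin n → ℂ) → (Fin n → ℂ) → ℂ}

/-- The set of the endomorphisms given by the elements of `G`. -/
def gEnd (G : Subgroup ((Fin n → ℂ) ≃ₗ[ℂ] (Fin n → ℂ))) : Set (Module.End ℂ (Fin n → ℂ)) :=
  {a | ∃ g ∈ G, a = (g : (Fin n → ℂ) →ₗ[ℂ] (Fin n → ℂ))}

theorem exists_pol [Fintype G] (hG : PresLat G) :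
    ∃ (d : ℕ) (b : Module.Basis (Fin d) ℝ (Fin n → ℂ)),
      Pol (fun u w : Fin n → ℂ => (kap : ℂ) * avg G std u w) (lat n) (gEnd G) d b := by
  obtain ⟨d, b, hb⟩ := exists_basis n
  have hh : IsHermitian (avg G std) := avg_herm std_herm
  refine ⟨d, b, ⟨⟨fun u v w => ?_, fun a v w => ?_, fun v w => ?_⟩, fun v hv => ?_, hb,
    fun x hx y hy => ?_, ?_⟩⟩
  · rw [hh.add_left]; ring
  · rw [hh.smul_left]; ring
  · rw [map_mul, ← hh.symm, Complex.conj_ofReal]
  · rw [Complex.re_ofReal_mul]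
    exact mul_pos kap_pos (lt_of_lt_of_le (std_pos hv) (std_le_avg v))
  · rw [Complex.im_ofReal_mul]
    exact kap_im_eis ((avg_dat hG std_dat).int x y hx hy)
  · rintro a ⟨g, hg, rfl⟩ x y
    exact congrArg _ (avg_inv std g hg x y)

theorem form_span (x : NS (grp G hG)) :
    Pool.Agent.R895.form (up x) ∈ Submodule.span ℝ {z | Pol.IsInt (lat n) (gEnd G) z} := by
  obtain ⟨x, hx⟩ := x
  change x.1 ∈ _
  induction hx using Submodule.span_induction with
  | mem x hx =>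
    obtain ⟨L, hL⟩ := hx
    refine Submodule.subset_span ⟨hL.1.1, ?_, fun u hu w hw => ?_⟩
    · rintro a ⟨g, hg, rfl⟩ u w
      exact chern_inv hL ⟨g, hg⟩ u w
    · obtain ⟨H, h1, h2, -⟩ := res_class hL
      rw [h2]
      exact Pool.Agent.R895.chern_int h1 hu hw
  | zero => exact Submodule.zero_mem _
  | add x y _ _ h1 h2 => exact Submodule.add_mem _ h1 h2
  | smul t x _ h1 => exact Submodule.smul_mem _ t h1

/-- **Reduction theory.** -/
theorem red_cls [Fintype G] (hG : PresLat G) :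
    ∃ F : Finset ((Fin n → ℂ) → (Fin n → ℂ) → ℂ),
      (∀ z ∈ F, (Dat z ∧ ∀ v, 0 ≤ (z v v).re) ∧ Inv G z) ∧
      ∀ x : NS (grp G hG), (∃ t : ℝ, 0 < t ∧ ∀ v, t * (std v v).re ≤ (frm (up x) v v).re) →
        ∃ u : (Fin n → ℂ) ≃ₗ[ℂ] (Fin n → ℂ), (∀ v, Lat v → Lat (u v)) ∧
          (∀ v, Lat v → Lat (u.symm v)) ∧ (∀ g ∈ G, ∀ v, u (g v) = g (u v)) ∧
          ∃ c : ((Fin n → ℂ) → (Fin n → ℂ) → ℂ) → ℝ, (∀ z, 0 ≤ c z) ∧
            ∀ v w, frm (up x) v w = ∑ z ∈ F, c z * z (u v) (u w) := by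
  classical
  obtain ⟨d, b, P⟩ := exists_pol hG
  obtain ⟨F, hF, hred⟩ := P.red
  obtain ⟨C, hC, hCs⟩ := avg_le_std G
  let sc : ((Fin n → ℂ) → (Fin n → ℂ) → ℂ) → ((Fin n → ℂ) → (Fin n → ℂ) → ℂ) :=
    fun z u w => z u w / kap
  have hsc : Function.Injective sc := by
    intro z z' hzz
    funext u w
    have h1 : z u w / kap = z' u w / kap := congrFun (congrFun hzz u) w
    have h2 := kap_ne
    field_simp at h1
    exact h1
  refine ⟨F.image sc, fun z hz => ?_, fun x hx => ?_⟩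
  · obtain ⟨z, hz', rfl⟩ := Finset.mem_image.1 hz
    obtain ⟨h1, h2⟩ := hF z hz'
    refine ⟨⟨?_, fun v => ?_⟩, fun g hg u w => ?_⟩
    · have h3 : Pol.IsInt (lat n) ∅ z := ⟨h1.herm, fun g hg => absurd hg (Set.notMem_empty g), h1.int⟩
      exact dat_of_isInt h3
    · change 0 ≤ (z v v / kap).re
      rw [re_kap_div]
      exact div_nonneg (h2 v) kap_pos.le
    · change z (g u) (g w) / kap = z u w / kap
      have h3 : z (g u) (g w) = z u w := h1.inv _ ⟨g, hg, rfl⟩ u w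
      rw [h3]
  · obtain ⟨t, ht, hxt⟩ := hx
    obtain ⟨u, hu1, hu2, hu3, c, hc, hsum⟩ := hred (Pool.Agent.R895.form (up x)) (form_span x)
      ⟨t / C, by positivity, fun v => by
        rw [form_frm, Complex.re_ofReal_mul, Complex.re_ofReal_mul]
        have h1 := hxt v
        have h2 := kap_pos
        have h3 := hCs v
        have h4 : t / C * (kap * (avg G std v v).re) = kap * (t * ((avg G std v v).re / C)) := by
          field_simp
        rw [h4]
        refine mul_le_mul_of_nonneg_left (le_trans (mul_le_mul_of_nonneg_left ?_ ht.le) h1) h2.le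
        rw [div_le_iff₀ hC, mul_comm]
        exact h3⟩
    refine ⟨u, fun v hv => hu1 v hv, fun v hv => hu2 v hv, fun g hg v => hu3 _ ⟨g, hg, rfl⟩ v,
      fun z => c fun u w => kap * z u w, fun z => hc _, fun v w => ?_⟩
    rw [Finset.sum_image fun z _ z' _ h => hsc h]
    unfold frm
    rw [hsum, Finset.sum_div]
    refine Finset.sum_congr rfl fun z _ => ?_
    have h2 := kap_ne
    have h3 : (fun u w => (kap : ℂ) * sc z u w) = z := by
      funext u w
      change (kap : ℂ) * (z u w / kap) = z u w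
      field_simp
    change (c z : ℂ) * z (u v) (u w) / kap =
      (c (fun u w => (kap : ℂ) * sc z u w) : ℂ) * (z (u v) (u w) / kap)
    rw [h3, mul_div_assoc]

section pullback

variable {V : Type*} [NormedAddCommGroup V] [NormedSpace ℂ V] [FiniteDimensional ℂ V]
  {Γ : AffGrp V}

/-- The pullback of a line bundle by the automorphism given by `f`. -/
noncomputable def pullQ {f : V ≃ₗ[ℂ] V} (hf : Normalizes Γ f) (L : QBundle Γ) : QBundle Γ where
  toBlBundle := pullB hf L.toBlBundle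
  eig := fun γ u ζ hu h1 => by
    change L.e (cjg hf γ) (f 0) = ζ ^ L.k
    rw [map_zero]
    refine L.eig _ (f u) ζ (fun h => hu (f.map_eq_zero_iff.1 h)) fun t => ?_
    rw [← map_smul, cjg_apply, h1, map_smul]

theorem isCls_pullQ {f : V ≃ₗ[ℂ] V} (hf : Normalizes Γ f) {L : QBundle Γ}
    {x : (V → V → ℂ) × ℝ} (hL : IsCls L x) :
    IsCls (pullQ hf L) (fun v w => x.1 (f v) (f w), x.2) := by
  obtain ⟨⟨hH, F, hF, hFe⟩, h2⟩ := hL
  refine ⟨⟨⟨fun u v w => ?_, fun a v w => ?_, fun v w => ?_⟩,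
    fun v => F (f v), hF.comp (differentiable_equiv f), fun γ v => ?_⟩, h2⟩
  · dsimp only
    rw [map_add, hH.add_left]
  · dsimp only
    rw [map_smul, hH.smul_left]
  · exact hH.symm _ _
  · have h3 := hFe (cjg hf γ) (f v)
    rw [cjg_apply] at h3
    exact h3

theorem pb_mem {f : V ≃ₗ[ℂ] V} (hf : Normalizes Γ f) {x : (V → V → ℂ) × ℝ} (hx : x ∈ NSs Γ) :
    ((fun v w => x.1 (f v) (f w), x.2) : (V → V → ℂ) × ℝ) ∈ NSs Γ := by
  unfold NSs at hx
  induction hx using Submodule.span_induction with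
  | mem x hx =>
    obtain ⟨L, hL⟩ := hx
    exact Submodule.subset_span ⟨_, isCls_pullQ hf hL⟩
  | zero => exact Submodule.zero_mem _
  | add x y _ _ h1 h2 => exact Submodule.add_mem _ h1 h2
  | smul t x _ h1 => exact Submodule.smul_mem _ t h1

omit [FiniteDimensional ℂ V] in
theorem normalizes_symm {f : V ≃ₗ[ℂ] V} (hf : Normalizes Γ f) : Normalizes Γ f.symm := by
  intro γ
  have h1 := hf (f.symm.toAffineEquiv * γ * f.symm.toAffineEquiv⁻¹)
  have h2 : f.toAffineEquiv * (f.symm.toAffineEquiv * γ * f.symm.toAffineEquiv⁻¹) *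
      f.toAffineEquiv⁻¹ = γ := by
    ext v
    change f (f.symm (γ (f (f.symm v)))) = γ v
    rw [f.apply_symm_apply, f.apply_symm_apply]
  rw [h2] at h1
  exact h1.symm

/-- The action of an automorphism on the classes. -/
theorem exists_pull {f : V ≃ₗ[ℂ] V} (hf : Normalizes Γ f) : ∃ g : NS Γ ≃ₗ[ℝ] NS Γ,
    IsPullback f g ∧ IsPullback f.symm g.symm ∧
      (∀ x ∈ integral Γ, g x ∈ integral Γ) ∧ ∀ x ∈ integral Γ, g.symm x ∈ integral Γ := by
  have hf' := normalizes_symm hf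
  let g : NS Γ ≃ₗ[ℝ] NS Γ :=
    { toFun := fun x => ⟨(fun v w => x.1.1 (f v) (f w), x.1.2), pb_mem hf x.2⟩
      map_add' := fun x y => rfl
      map_smul' := fun c x => rfl
      invFun := fun x => ⟨(fun v w => x.1.1 (f.symm v) (f.symm w), x.1.2), pb_mem hf' x.2⟩
      left_inv := fun x => by
        apply Subtype.ext
        refine Prod.ext ?_ rfl
        funext v w
        change x.1.1 (f (f.symm v)) (f (f.symm w)) = x.1.1 v w
        rw [f.apply_symm_apply, f.apply_symm_apply]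
      right_inv := fun x => by
        apply Subtype.ext
        refine Prod.ext ?_ rfl
        funext v w
        change x.1.1 (f.symm (f v)) (f.symm (f w)) = x.1.1 v w
        rw [f.symm_apply_apply, f.symm_apply_apply] }
  refine ⟨g, ⟨fun _ _ _ => rfl, fun _ => rfl⟩, ⟨fun _ _ _ => rfl, fun _ => rfl⟩, ?_, ?_⟩
  · rintro x ⟨L, hL⟩
    exact ⟨_, isCls_pullQ hf hL⟩
  · rintro x ⟨L, hL⟩
    exact ⟨_, isCls_pullQ hf' hL⟩

end pullback

theorem conj_mem {f : (Fin n → ℂ) ≃ₗ[ℂ] (Fin n → ℂ)} (hf : ∀ v, Lat v → Lat (f v))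
    (hc : ∀ g ∈ G, ∀ v, f (g v) = g (f v)) {γ : (Fin n → ℂ) ≃ᵃ[ℂ] (Fin n → ℂ)}
    (hγ : γ ∈ grp G hG) : f.toAffineEquiv * γ * f.toAffineEquiv⁻¹ ∈ grp G hG := by
  obtain ⟨g, hg, l, hl, h4⟩ := hγ
  refine ⟨g, hg, f l, hf l hl, fun v => ?_⟩
  change f (γ (f.symm v)) = _
  rw [h4, map_add, hc g hg, f.apply_symm_apply]

theorem normalizes_of {f : (Fin n → ℂ) ≃ₗ[ℂ] (Fin n → ℂ)} (hf : ∀ v, Lat v → Lat (f v))
    (hf' : ∀ v, Lat v → Lat (f.symm v)) (hc : ∀ g ∈ G, ∀ v, f (g v) = g (f v)) :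
    Normalizes (grp G hG) f := by
  have hc' : ∀ g ∈ G, ∀ v, f.symm (g v) = g (f.symm v) := fun g hg v => by
    apply f.injective
    rw [f.apply_symm_apply, hc g hg, f.apply_symm_apply]
  intro γ
  refine ⟨fun h => conj_mem hf hc h, fun h => ?_⟩
  have h1 := conj_mem hf' hc' h
  have h2 : f.symm.toAffineEquiv * (f.toAffineEquiv * γ * f.toAffineEquiv⁻¹) *
      f.symm.toAffineEquiv⁻¹ = γ := by
    ext v i
    change f.symm (f (γ (f.symm (f v)))) i = γ v i
    rw [f.symm_apply_apply, f.symm_apply_apply]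
  rwa [h2] at h1

end Pool.Agent.T6.H34.EK
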