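import Pool.Agent.T6.H34.EK.Sec

/-!
# Semiample line bundles given by invariant hermitian forms
-/

set_option autoImplicit false

namespace Pool.Agent.T6.H34.EK

open Filter Topology Asymptotics Complex
open Pool.Agent.W594.SYZ2 (IsHermitian)
open Pool.Agent.R895 (Lat BlBundle act kum N1 N1s IsEis IsClass std frm kap Nf Dat cs_of_psd kap_pos
  kap_ne exp_int_shift thE thB kum_spec thE_eq herm_differentiable prod_differentiable)
open Pool.Agent.Y167 (AffGrp cone)

/-- A complex vector space is not a finite union of proper subspaces. -/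
theorem avoidC {E ι : Type*} [AddCommGroup E] [Module ℂ E] (s : Finset ι) (sub : ι → Submodule ℂ E)
    (h : ∀ i ∈ s, sub i ≠ ⊤) : ∃ x, ∀ i ∈ s, x ∉ sub i := by
  classical
  have hnt : (⊤ : Submodule ℂ E) ∉ s.image sub := by
    rw [Finset.mem_image]
    rintro ⟨g, hg, hg2⟩
    exact h g hg hg2
  have hne := Subspace.biUnion_ne_univ_of_top_notMem hnt
  by_contra hcon
  push Not at hcon
  apply hne
  rw [Set.eq_univ_iff_forall]
  intro η
  obtain ⟨g, hg, hgη⟩ := hcon η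
  simp only [Set.mem_iUnion]
  exact ⟨sub g, Finset.mem_image_of_mem _ hg, hgη⟩

section secs

variable {V : Type*} [NormedAddCommGroup V] [NormedSpace ℂ V] {Γ : AffGrp V}

/-- The space of sections. -/
def secs (L : BlBundle Γ) : Submodule ℂ (V → ℂ) where
  carrier := {s | L.IsSection s}
  add_mem' := fun {s t} hs ht => ⟨hs.holo.add ht.holo, fun γ v => by
    rw [Pi.add_apply, Pi.add_apply, hs.eq, ht.eq, mul_add], hs.ord.add ht.ord⟩
  zero_mem' := ⟨differentiable_const 0, fun γ v => by simp, isBigO_zero _ _⟩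
  smul_mem' := fun c s hs => ⟨hs.holo.const_smul c, fun γ v => by
    rw [Pi.smul_apply, Pi.smul_apply, hs.eq, smul_eq_mul, smul_eq_mul]; ring,
    hs.ord.const_smul_left c⟩

variable {L : BlBundle Γ}

/-- The sections which vanish at `v`. -/
def vat (L : BlBundle Γ) (v : V) : Submodule ℂ (secs L) where
  carrier := {s | s.1 v = 0}
  add_mem' := fun {s t} hs ht => by
    change s.1 v + t.1 v = 0
    have hs' : s.1 v = 0 := hs
    have ht' : t.1 v = 0 := ht
    rw [hs', ht', add_zero]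
  zero_mem' := rfl
  smul_mem' := fun c s hs => by
    change c * s.1 v = 0
    have hs' : s.1 v = 0 := hs
    rw [hs', mul_zero]

/-- The sections which vanish in the direction `u`. -/
def vdir (L : BlBundle Γ) (u : V) : Submodule ℂ (secs L) where
  carrier := {s | Tendsto (fun t : ℂ => s.1 (t • u) / t ^ L.k) (𝓝[≠] 0) (𝓝 0)}
  add_mem' := fun {s t} hs ht => by
    have hs' : Tendsto (fun t : ℂ => s.1 (t • u) / t ^ L.k) (𝓝[≠] 0) (𝓝 0) := hs
    have ht' : Tendsto (fun r : ℂ => t.1 (r • u) / r ^ L.k) (𝓝[≠] 0) (𝓝 0) := ht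
    have h := hs'.add ht'
    rw [add_zero] at h
    refine h.congr fun r => ?_
    rw [← add_div]
    rfl
  zero_mem' := by
    refine tendsto_const_nhds.congr fun r => ?_
    change 0 = (0 : ℂ) / r ^ L.k
    rw [zero_div]
  smul_mem' := fun c s hs => by
    have hs' : Tendsto (fun t : ℂ => s.1 (t • u) / t ^ L.k) (𝓝[≠] 0) (𝓝 0) := hs
    have h := hs'.const_mul c
    rw [mul_zero] at h
    refine h.congr fun r => ?_
    rw [← mul_div_assoc]
    rfl

/-- A section which does not vanish at finitely many points. -/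
theorem exists_sec_out {κ : Type*} [Fintype κ] (p : κ → V)
    (h : ∀ i, ∃ s, L.IsSection s ∧ s (p i) ≠ 0) : ∃ s, L.IsSection s ∧ ∀ i, s (p i) ≠ 0 := by
  obtain ⟨s, hs⟩ := avoidC Finset.univ (fun i => vat L (p i)) fun i _ htop => by
    obtain ⟨s, hs, h0⟩ := h i
    apply h0
    have h1 : (⟨s, hs⟩ : secs L) ∈ vat L (p i) := by rw [htop]; exact Submodule.mem_top
    exact h1
  exact ⟨s.1, s.2, fun i h0 => hs i (Finset.mem_univ _) h0⟩

/-- A section which does not vanish in finitely many directions. -/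
theorem exists_sec_dir {κ : Type*} [Fintype κ] (u : κ → V) {m : ℕ} (hk : L.k = m)
    (h : ∀ i, ∃ s, L.IsSection s ∧ L.NonvanishingAt s (u i)) :
    ∃ s, L.IsSection s ∧ ∀ i, L.NonvanishingAt s (u i) := by
  obtain ⟨s, hs⟩ := avoidC Finset.univ (fun i => vdir L (u i)) fun i _ htop => by
    obtain ⟨s, hs, c, hc, hlim⟩ := h i
    apply hc
    have h1 : (⟨s, hs⟩ : secs L) ∈ vdir L (u i) := by rw [htop]; exact Submodule.mem_top
    exact tendsto_nhds_unique hlim h1
  refine ⟨s.1, s.2, fun i => ?_⟩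
  have hline : Differentiable ℂ fun t : ℂ => t • u i := differentiable_id.smul_const (u i)
  have hord := s.2.ord
  rw [hk, Int.toNat_natCast] at hord
  obtain ⟨c, hc⟩ := exists_lim (s.2.holo.comp hline) (isBigO_line hord (u i))
  have hc' : Tendsto (fun t : ℂ => s.1 (t • u i) / t ^ L.k) (𝓝[≠] 0) (𝓝 c) := by
    rw [hk]
    simpa only [zpow_natCast, Function.comp_apply] using hc
  refine ⟨c, fun h0 => hs i (Finset.mem_univ _) ?_, hc'⟩
  rw [h0] at hc'
  exact hc'

end secs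

section powers

variable {n : ℕ} {h : (Fin n → ℂ) → (Fin n → ℂ) → ℂ}

open Pool.Agent.R895

theorem sec_pow [Nonempty (Fin n)] (hh : IsHermitian h)
    (hint : ∀ u w, Lat u → Lat w → IsEis (h u w)) {b N : ℕ} {s : (Fin n → ℂ) → ℂ}
    (hs : ((thB 1 hh hint b).pow N).IsSection s) (M : ℕ) :
    ((thB 1 hh hint b).pow (N * M)).IsSection fun v => s v ^ M := by
  refine ⟨hs.holo.pow M, fun γ v => ?_, ?_⟩
  · rw [hs.eq, mul_pow]
    congr 1
    change ((thB 1 hh hint b).e γ v ^ N) ^ M = (thB 1 hh hint b).e γ v ^ (N * M)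
    rw [pow_mul]
  · rw [k_thB, Int.toNat_natCast]
    have h1 := hs.ord
    rw [k_thB, Int.toNat_natCast] at h1
    refine (h1.pow M).congr_right fun v => ?_
    rw [← pow_mul]
    congr 1
    ring

theorem nonvanishing_pow [Nonempty (Fin n)] (hh : IsHermitian h)
    (hint : ∀ u w, Lat u → Lat w → IsEis (h u w)) {b N : ℕ} {s : (Fin n → ℂ) → ℂ}
    {u : Fin n → ℂ} (hs : ((thB 1 hh hint b).pow N).NonvanishingAt s u) (M : ℕ) :
    ((thB 1 hh hint b).pow (N * M)).NonvanishingAt (fun v => s v ^ M) u := by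
  obtain ⟨c, hc, hlim⟩ := hs
  refine ⟨c ^ M, pow_ne_zero _ hc, ?_⟩
  refine (hlim.pow M).congr fun t => ?_
  rw [k_thB, k_thB, div_pow, zpow_natCast, zpow_natCast, ← pow_mul]
  congr 2
  ring

end powers

variable {n : ℕ} {G : Subgroup ((Fin n → ℂ) ≃ₗ[ℂ] (Fin n → ℂ))} {hG : PresLat G}
  {h : (Fin n → ℂ) → (Fin n → ℂ) → ℂ} [Fintype G]

theorem lat_equiv (hG : PresLat G) {g : (Fin n → ℂ) ≃ₗ[ℂ] (Fin n → ℂ)} (hg : g ∈ G)
    {v : Fin n → ℂ} : Lat (g v) ↔ Lat v := by
  refine ⟨fun h => ?_, hG g hg v⟩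
  have h1 := hG _ (G.inv_mem hg) _ h
  have h2 : g⁻¹ (g v) = v := g.symm_apply_apply v
  rwa [h2] at h1

/-- **The norm of a semiample line bundle is semiample.** -/
theorem semiample_qB [Nonempty (Fin n)] (hG : PresLat G) (hh : IsHermitian h)
    (hint : ∀ u w, Lat u → Lat w → IsEis (h u w)) (hi : Inv G h) {b : ℕ}
    (hsa : (thB 1 hh hint b).IsSemiample) : (qB hG hh hint hi b).toBlBundle.IsSemiample := by
  classical
  refine ⟨fun v hv => ?_, fun u hu => ?_⟩
  · have hv' := not_lat hv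
    have h1 : ∀ g : G, ∃ N : ℕ, 1 ≤ N ∧ ∃ s, ((thB 1 hh hint b).pow N).IsSection s ∧
        s ((g : (Fin n → ℂ) ≃ₗ[ℂ] (Fin n → ℂ)) v) ≠ 0 := fun g =>
      hsa.out _ fun δ => not_orb' (fun h => hv' ((lat_equiv hG g.2).1 h)) δ
    choose N hN s hs h0 using h1
    obtain ⟨s', hs', h0'⟩ := exists_sec_out (L := (thB 1 hh hint b).pow (∏ g, N g))
      (fun g : G => (g : (Fin n → ℂ) ≃ₗ[ℂ] (Fin n → ℂ)) v) fun g => by
        obtain ⟨M, hM⟩ := Finset.dvd_prod_of_mem N (Finset.mem_univ g)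
        refine ⟨fun v => s g v ^ M, ?_, pow_ne_zero _ (h0 g)⟩
        rw [hM]
        exact sec_pow hh hint (hs g) M
    exact ⟨∏ g, N g, Nat.one_le_iff_ne_zero.2 (Finset.prod_ne_zero_iff.2 fun g _ => by
      have := hN g; omega), nm G s', nm_section hG hh hint hi hs',
      Finset.prod_ne_zero_iff.2 fun g _ => h0' g⟩
  · have h1 : ∀ g : G, ∃ N : ℕ, 1 ≤ N ∧ ∃ s, ((thB 1 hh hint b).pow N).IsSection s ∧
        ((thB 1 hh hint b).pow N).NonvanishingAt s
          ((g : (Fin n → ℂ) ≃ₗ[ℂ] (Fin n → ℂ)) u) := fun g =>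
      hsa.exc _ (by
        intro h
        exact hu ((g : (Fin n → ℂ) ≃ₗ[ℂ] (Fin n → ℂ)).map_eq_zero_iff.1 h))
    choose N hN s hs h0 using h1
    obtain ⟨s', hs', h0'⟩ := exists_sec_dir (L := (thB 1 hh hint b).pow (∏ g, N g))
      (fun g : G => (g : (Fin n → ℂ) ≃ₗ[ℂ] (Fin n → ℂ)) u) (k_thB hh hint b _) fun g => by
        obtain ⟨M, hM⟩ := Finset.dvd_prod_of_mem N (Finset.mem_univ g)
        refine ⟨fun v => s g v ^ M, ?_, ?_⟩
        · rw [hM]
          exact sec_pow hh hint (hs g) M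
        · rw [hM]
          exact nonvanishing_pow hh hint (h0 g) M
    exact ⟨∏ g, N g, Nat.one_le_iff_ne_zero.2 (Finset.prod_ne_zero_iff.2 fun g _ => by
      have := hN g; omega), nm G s', nm_section hG hh hint hi hs',
      nm_nonvanishing hG hh hint hi h0'⟩

/-- The norm of a section which is not zero. -/
theorem section_qB [Nonempty (Fin n)] (hG : PresLat G) (hh : IsHermitian h)
    (hint : ∀ u w, Lat u → Lat w → IsEis (h u w)) (hi : Inv G h) {b : ℕ}
    (hsec : ∃ N : ℕ, 1 ≤ N ∧ ∃ s, ((thB 1 hh hint b).pow N).IsSection s ∧ ∃ v, s v ≠ 0) :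
    ∃ N : ℕ, 1 ≤ N ∧ ∃ s, ((qB hG hh hint hi b).toBlBundle.pow N).IsSection s ∧
      ∃ v, s v ≠ 0 := by
  obtain ⟨N, hN, s, hs, v, hv⟩ := hsec
  refine ⟨N, hN, nm G s, nm_section hG hh hint hi hs, ?_⟩
  refine prod_ne Finset.univ (fun (g : G) v => s ((g : (Fin n → ℂ) ≃ₗ[ℂ] (Fin n → ℂ)) v))
    (fun g => hs.holo.comp (Pool.Agent.R895.differentiable_equiv _)) fun g _ =>
      ⟨(g : (Fin n → ℂ) ≃ₗ[ℂ] (Fin n → ℂ)).symm v, ?_⟩
  rwa [LinearEquiv.apply_symm_apply]

end Pool.Agent.T6.H34.EK
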