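import Pool.Agent.T6.H34.EK.Bun

/-!
# Norms of sections
-/

set_option autoImplicit false

namespace Pool.Agent.T6.H34.EK

open Filter Topology Asymptotics Complex
open Pool.Agent.W594.SYZ2 (IsHermitian)
open Pool.Agent.W594.SYZ2.TQ (h_add_right h_smul_right h_zero_left h_zero_right h_neg_left
  h_sub_left h_re_symm)
open Pool.Agent.R895 (Lat BlBundle act kum N1 N1s IsEis IsClass std frm kap Nf Dat cs_of_psd kap_pos
  kap_ne exp_int_shift thE thB kum_spec thE_eq herm_differentiable prod_differentiable)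
open Pool.Agent.Y167 (AffGrp cone)

section analysis

theorem exists_lim {f : ℂ → ℂ} (hf : Differentiable ℂ f) {m : ℕ}
    (hO : f =O[𝓝 0] fun t => ‖t‖ ^ m) :
    ∃ c, Tendsto (fun t => f t / t ^ m) (𝓝[≠] 0) (𝓝 c) := by
  have han : AnalyticAt ℂ f 0 := hf.analyticAt 0
  have key : (m : ℕ∞) ≤ analyticOrderAt f 0 := by
    by_contra hlt
    rw [not_le] at hlt
    obtain ⟨k, hk⟩ := ENat.ne_top_iff_exists.1 (ne_top_of_lt hlt)
    obtain ⟨g, hg, hg0, hfg⟩ := han.analyticOrderAt_eq_natCast.1 hk.symm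
    rw [← hk] at hlt
    have hkm : k < m := by exact_mod_cast hlt
    apply hg0
    have h1 : Tendsto g (𝓝[≠] 0) (𝓝 (g 0)) := hg.continuousAt.tendsto.mono_left nhdsWithin_le_nhds
    refine tendsto_nhds_unique h1 ?_
    have h2 : g =ᶠ[𝓝[≠] 0] fun t => f t / t ^ k := by
      filter_upwards [nhdsWithin_le_nhds hfg, self_mem_nhdsWithin] with t ht ht0
      have ht0' : t ≠ 0 := ht0
      rw [ht, sub_zero, smul_eq_mul]
      field_simp
    refine Tendsto.congr' h2.symm ?_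
    have h3 : (fun t => f t / t ^ k) =O[𝓝[≠] 0] fun t : ℂ => ‖t‖ ^ (m - k) := by
      obtain ⟨C, hC⟩ := (hO.mono (nhdsWithin_le_nhds (s := {0}ᶜ))).bound
      refine IsBigO.of_bound C ?_
      filter_upwards [hC, self_mem_nhdsWithin] with t ht ht0
      have ht0' : t ≠ 0 := ht0
      have ht1 : 0 < ‖t‖ := norm_pos_iff.2 ht0'
      rw [norm_div, norm_pow, norm_pow, norm_norm, div_le_iff₀ (by positivity), mul_assoc,
        ← pow_add, Nat.sub_add_cancel hkm.le]
      simpa using ht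
    refine h3.trans_tendsto ?_
    have h4 : Tendsto (fun t : ℂ => ‖t‖ ^ (m - k)) (𝓝 0) (𝓝 (‖(0 : ℂ)‖ ^ (m - k))) :=
      (continuous_norm.pow _).tendsto 0
    rw [norm_zero, zero_pow (by omega)] at h4
    exact h4.mono_left nhdsWithin_le_nhds
  obtain ⟨g, hg, hfg⟩ := (natCast_le_analyticOrderAt han).1 key
  refine ⟨g 0, ?_⟩
  have h1 : Tendsto g (𝓝[≠] 0) (𝓝 (g 0)) := hg.continuousAt.tendsto.mono_left nhdsWithin_le_nhds
  refine h1.congr' ?_
  filter_upwards [nhdsWithin_le_nhds hfg, self_mem_nhdsWithin] with t ht ht0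
  have ht0' : t ≠ 0 := ht0
  rw [ht, sub_zero, smul_eq_mul]
  field_simp

theorem isBigO_line {V : Type*} [NormedAddCommGroup V] [NormedSpace ℂ V] {s : V → ℂ} {m : ℕ}
    (hO : s =O[𝓝 0] fun v => ‖v‖ ^ m) (u : V) : (fun t : ℂ => s (t • u)) =O[𝓝 0]
      fun t => ‖t‖ ^ m := by
  have h1 : Tendsto (fun t : ℂ => t • u) (𝓝 0) (𝓝 0) := by
    have : Continuous fun t : ℂ => t • u := by fun_prop
    have h := this.tendsto 0
    rwa [zero_smul] at h
  refine (hO.comp_tendsto h1).trans ?_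
  refine IsBigO.of_bound (‖u‖ ^ m) (Eventually.of_forall fun t => ?_)
  simp only [Function.comp_apply, norm_smul, mul_pow, norm_mul, norm_pow, norm_norm]
  rw [mul_comm]

variable {ι : Type*} [Fintype ι]

/-- A product of entire functions which are not zero is not zero. -/
theorem prod_ne {κ : Type*} (T : Finset κ) (f : κ → (ι → ℂ) → ℂ)
    (hf : ∀ i, Differentiable ℂ (f i)) (h0 : ∀ i ∈ T, ∃ v, f i v ≠ 0) :
    ∃ v, ∏ i ∈ T, f i v ≠ 0 := by
  classical
  induction T using Finset.induction_on with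
  | empty => exact ⟨0, by simp⟩
  | insert i s hi ih =>
    obtain ⟨v, hv⟩ := ih fun j hj => h0 j (Finset.mem_insert_of_mem hj)
    obtain ⟨w, hw⟩ := h0 i (Finset.mem_insert_self _ _)
    -- the line through `v` and `w`
    have hline : Differentiable ℂ fun t : ℂ => v + t • (w - v) := by fun_prop
    have h1 : AnalyticOnNhd ℂ (fun t : ℂ => f i (v + t • (w - v))) Set.univ :=
      fun x _ => ((hf i).comp hline : Differentiable ℂ _).analyticAt x
    have hs : Differentiable ℂ fun v => ∏ j ∈ s, f j v := by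
      exact prod_differentiable s f hf
    have h2 : AnalyticOnNhd ℂ (fun t : ℂ => ∏ j ∈ s, f j (v + t • (w - v))) Set.univ :=
      fun x _ => (hs.comp hline : Differentiable ℂ _).analyticAt x
    by_contra hcon
    push Not at hcon
    rcases h1.eq_zero_or_eq_zero_of_mul_eq_zero h2 (fun t _ => by
      have := hcon (v + t • (w - v))
      rwa [Finset.prod_insert hi] at this) isPreconnected_univ with h | h
    · apply hw
      have := h 1 (Set.mem_univ _)
      simpa using this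
    · apply hv
      have := h 0 (Set.mem_univ _)
      simpa using this

end analysis

variable {n : ℕ} {G : Subgroup ((Fin n → ℂ) ≃ₗ[ℂ] (Fin n → ℂ))} {hG : PresLat G}
  {h : (Fin n → ℂ) → (Fin n → ℂ) → ℂ} [Fintype G]

/-- The norm of a section. -/
noncomputable def nm (G : Subgroup ((Fin n → ℂ) ≃ₗ[ℂ] (Fin n → ℂ))) [Fintype G]
    (s : (Fin n → ℂ) → ℂ) (v : Fin n → ℂ) : ℂ :=
  ∏ g : G, s ((g : (Fin n → ℂ) ≃ₗ[ℂ] (Fin n → ℂ)) v)

theorem prod_O {κ : Type*} (T : Finset κ) (f : κ → (Fin n → ℂ) → ℂ) {a : ℕ}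
    (hf : ∀ i ∈ T, f i =O[𝓝 0] fun v : Fin n → ℂ => ‖v‖ ^ a) :
    (fun v => ∏ i ∈ T, f i v) =O[𝓝 0] fun v : Fin n → ℂ => ‖v‖ ^ (a * T.card) := by
  classical
  induction T using Finset.induction_on with
  | empty =>
    simp only [Finset.prod_empty, Finset.card_empty, mul_zero, pow_zero]
    exact isBigO_of_le _ fun v => by simp
  | insert i s hi ih =>
    have h1 := (hf i (Finset.mem_insert_self _ _)).mul
      (ih fun j hj => hf j (Finset.mem_insert_of_mem hj))
    refine h1.congr (fun v => ?_) (fun v => ?_)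
    · rw [Finset.prod_insert hi]
    · rw [Finset.card_insert_of_notMem hi]
      ring

theorem linear_O {s : (Fin n → ℂ) → ℂ} {a : ℕ} (hs : s =O[𝓝 0] fun v => ‖v‖ ^ a)
    (A : (Fin n → ℂ) ≃ₗ[ℂ] (Fin n → ℂ)) :
    (fun v => s (A v)) =O[𝓝 0] fun v => ‖v‖ ^ a := by
  have hA : Differentiable ℂ (A : (Fin n → ℂ) → (Fin n → ℂ)) :=
    Pool.Agent.R895.differentiable_equiv A
  have h2 : Tendsto (fun v => A v) (𝓝 0) (𝓝 0) := by
    have := hA.continuous.tendsto 0
    rwa [map_zero] at this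
  refine (hs.comp_tendsto h2).trans ?_
  have h4 : (fun v => A v) =O[𝓝 0] fun v => v := by
    have h5 := (hA 0).hasFDerivAt.isBigO_sub
    simpa using h5
  exact (h4.norm_norm).pow a

theorem k_thB [Nonempty (Fin n)] (hh : IsHermitian h)
    (hint : ∀ u w, Lat u → Lat w → IsEis (h u w)) (b N : ℕ) :
    ((thB 1 hh hint b).pow N).k = ((N * (6 * b) : ℕ) : ℤ) := by
  have h2 : ((thB 1 hh hint b).pow N).k = N * (6 * b) := rfl
  rw [h2]
  push_cast
  ring

theorem k_qB [Nonempty (Fin n)] (hG : PresLat G) (hh : IsHermitian h)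
    (hint : ∀ u w, Lat u → Lat w → IsEis (h u w)) (hi : Inv G h) (b N : ℕ) :
    ((qB hG hh hint hi b).toBlBundle.pow N).k = ((N * (6 * b) * Fintype.card G : ℕ) : ℤ) := by
  have h2 : ((qB hG hh hint hi b).toBlBundle.pow N).k = N * (Fintype.card G * (6 * b)) := rfl
  rw [h2]
  push_cast
  ring

/-- The norm of a section is a section. -/
theorem nm_section [Nonempty (Fin n)] (hG : PresLat G) (hh : IsHermitian h)
    (hint : ∀ u w, Lat u → Lat w → IsEis (h u w)) (hi : Inv G h) {b N : ℕ}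
    {s : (Fin n → ℂ) → ℂ} (hs : ((thB 1 hh hint b).pow N).IsSection s) :
    ((qB hG hh hint hi b).toBlBundle.pow N).IsSection (nm G s) := by
  refine ⟨?_, fun γ v => ?_, ?_⟩
  · exact prod_differentiable Finset.univ
      (fun (g : G) v => s ((g : (Fin n → ℂ) ≃ₗ[ℂ] (Fin n → ℂ)) v))
      fun g => hs.holo.comp (Pool.Agent.R895.differentiable_equiv _)
  · obtain ⟨g₀, l, hl, h4⟩ := grp_spec γ
    have h5 : ((qB hG hh hint hi b).toBlBundle.pow N).e γ v = ∏ _g : G, qE h γ v ^ N := by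
      rw [Finset.prod_const, Finset.card_univ, ← pow_mul, mul_comm, pow_mul]
      rfl
    rw [h5]
    unfold nm
    have h6 : ∏ g : G, s ((g : (Fin n → ℂ) ≃ₗ[ℂ] (Fin n → ℂ)) v) =
        ∏ g : G, s (((g * g₀ : G) : (Fin n → ℂ) ≃ₗ[ℂ] (Fin n → ℂ)) v) :=
      (Fintype.prod_equiv (Equiv.mulRight g₀) _ _ fun g => rfl).symm
    rw [h6, ← Finset.prod_mul_distrib]
    refine Finset.prod_congr rfl fun g _ => ?_
    set A : (Fin n → ℂ) ≃ₗ[ℂ] (Fin n → ℂ) := (g : (Fin n → ℂ) ≃ₗ[ℂ] (Fin n → ℂ)) with hA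
    set B : (Fin n → ℂ) ≃ₗ[ℂ] (Fin n → ℂ) := (g₀ : (Fin n → ℂ) ≃ₗ[ℂ] (Fin n → ℂ)) with hB
    have hiA : ∀ u w, h (A u) (A w) = h u w := hi g g.2
    have hgv : ((g * g₀ : G) : (Fin n → ℂ) ≃ₗ[ℂ] (Fin n → ℂ)) v = A (B v) := rfl
    rw [hgv, h4, map_add]
    have hAl : Lat (A l) := hG g g.2 l hl
    have h7 := hs.eq (tr ⟨A l, hAl⟩) (A (B v))
    rw [tr_act] at h7
    have h8 : A (B v) + (⟨A l, hAl⟩ : Pool.Agent.R895.lat n) = A (B v) + A l := rfl
    rw [h8] at h7
    rw [h7]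
    congr 1
    have h9 : ((thB 1 hh hint b).pow N).e (tr ⟨A l, hAl⟩) (A (B v)) =
        thE h (tr ⟨A l, hAl⟩) (A (B v)) ^ N := rfl
    rw [h9, thE_eq hh (ζ := 1) (l := A l) (fun w => by
      have := tr_act ⟨A l, hAl⟩ w
      rw [one_smul]
      exact this), qE_eq hh h4, hiA, hiA, one_mul]
  · rw [k_qB, Int.toNat_natCast]
    have h1 := hs.ord
    rw [k_thB, Int.toNat_natCast] at h1
    exact prod_O Finset.univ (fun (g : G) v => s ((g : (Fin n → ℂ) ≃ₗ[ℂ] (Fin n → ℂ)) v))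
      fun g _ => linear_O h1 _

/-- The norm of a section does not vanish in the direction `u`. -/
theorem nm_nonvanishing [Nonempty (Fin n)] (hG : PresLat G) (hh : IsHermitian h)
    (hint : ∀ u w, Lat u → Lat w → IsEis (h u w)) (hi : Inv G h) {b N : ℕ}
    {s : (Fin n → ℂ) → ℂ} {u : Fin n → ℂ}
    (hs : ∀ g : G, ((thB 1 hh hint b).pow N).NonvanishingAt s
      ((g : (Fin n → ℂ) ≃ₗ[ℂ] (Fin n → ℂ)) u)) :
    ((qB hG hh hint hi b).toBlBundle.pow N).NonvanishingAt (nm G s) u := by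
  choose c hc hlim using hs
  refine ⟨∏ g : G, c g, Finset.prod_ne_zero_iff.2 fun g _ => hc g, ?_⟩
  rw [k_qB]
  have h1 : ∀ t : ℂ, nm G s (t • u) / t ^ ((N * (6 * b) * Fintype.card G : ℕ) : ℤ) =
      ∏ g : G, (s (t • (g : (Fin n → ℂ) ≃ₗ[ℂ] (Fin n → ℂ)) u) / t ^ (N * (6 * b))) := by
    intro t
    unfold nm
    rw [Finset.prod_div_distrib, Finset.prod_const, Finset.card_univ, zpow_natCast, pow_mul]
    simp only [map_smul]
  simp only [h1]
  refine tendsto_finsetProd _ fun g _ => ?_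
  have h2 := hlim g
  rw [k_thB] at h2
  simpa only [zpow_natCast] using h2

end Pool.Agent.T6.H34.EK
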